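import Mathlib

set_option autoImplicit false

/-!
# The biharmonic Sobolev constants of `ℝ^n` and of cones: definitions
-/

namespace Pool.Agent.K4H49.NV

open Topology Filter MeasureTheory Set Metric InnerProductSpace Laplacian
open scoped ContDiff ENNReal

/-- the space `ℝ^n` -/
abbrev E (n : ℕ) := EuclideanSpace ℝ (Fin n)

/-- the critical exponent `2** = 2n/(n-4)` -/
noncomputable def pS (n : ℕ) : ℝ := 2 * n / (n - 4)

/-- the Laplacian (that of Mathlib) -/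
noncomputable def lap {n : ℕ} (u : E n → ℝ) : E n → ℝ := Δ u

/-- the second derivative of `u` at `x` in the directions `v`, `w` -/
noncomputable def hess {n : ℕ} (u : E n → ℝ) (v w x : E n) : ℝ := fderiv ℝ (fderiv ℝ u) x v w

/-- the first derivative of `u` at `x` in the direction `v` -/
noncomputable def grad {n : ℕ} (u : E n → ℝ) (v x : E n) : ℝ := fderiv ℝ u x v

/-- the cone over `S`: all `r σ` with `r > 0`, `σ ∈ S` -/
def cone {n : ℕ} (S : Set (sphere (0 : E n) 1)) : Set (E n) :=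
  {x | ∃ r : ℝ, 0 < r ∧ ∃ σ ∈ S, x = r • (σ : E n)}

/-- the function `f` on `C` extends to a continuous function on the closure of `C` -/
def Extends {n : ℕ} (C : Set (E n)) (f : E n → ℝ) : Prop :=
  ∃ D : E n → ℝ, ContinuousOn D (closure C) ∧ ∀ x ∈ C, D x = f x

/-- `u ∈ C²(closure C)`: `u` is continuous on the closure of `C` and `C²` in `C`, and all its first
and second derivatives extend continuously to the closure -/
def C2Closure {n : ℕ} (C : Set (E n)) (u : E n → ℝ) : Prop :=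
  ContinuousOn u (closure C) ∧ ContDiffOn ℝ 2 u C ∧ (∀ v, Extends C (grad u v)) ∧
    ∀ v w, Extends C (hess u v w)

/-- `u` vanishes on the boundary of `C`, in a neighbourhood of `0` and in a neighbourhood of
infinity -/
def Vanishes {n : ℕ} (C : Set (E n)) (u : E n → ℝ) : Prop :=
  (∀ x ∈ frontier C, u x = 0) ∧ (∃ r : ℝ, 0 < r ∧ ∀ x ∈ closure C, ‖x‖ < r → u x = 0) ∧
    ∃ R : ℝ, ∀ x ∈ closure C, R < ‖x‖ → u x = 0

/-- The class `C²_c(closure C \ {0})` of the problem. -/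
def NavierClass {n : ℕ} (C : Set (E n)) (u : E n → ℝ) : Prop := C2Closure C u ∧ Vanishes C u

/-- the quotient `∫_Ω |Δ u|² / (∫_Ω |u|^2**)^(2/2**)` -/
noncomputable def quotient {n : ℕ} (Ω : Set (E n)) (u : E n → ℝ) : ℝ :=
  (∫ x in Ω, lap u x ^ 2) / (∫ x in Ω, |u x| ^ pS n) ^ (2 / pS n)

/-- the Navier-type constant `S_2**(C; 0)` -/
noncomputable def navierConst {n : ℕ} (C : Set (E n)) : ℝ :=
  sInf {q | ∃ u : E n → ℝ, NavierClass C u ∧ (∃ x ∈ C, u x ≠ 0) ∧ q = quotient C u}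

/-- `φ ∈ C_c^∞(ℝ^n)` -/
def IsTest {n : ℕ} (φ : E n → ℝ) : Prop := ContDiff ℝ ∞ φ ∧ HasCompactSupport φ

/-- `u ∈ L^q` is the limit of `φ k` in `L^q` -/
def LpLim {n : ℕ} (q : ℝ≥0∞) (φ : ℕ → E n → ℝ) (u : E n → ℝ) : Prop :=
  MemLp u q volume ∧ Tendsto (fun k => eLpNorm (φ k - u) q volume) atTop (𝓝 0)

/-- `u` is an element of `D²(ℝ^n)` with Laplacian `g`: `u` is the limit in `L^2**` of functions
`φ k ∈ C_c^∞(ℝ^n)` whose Laplacians converge to `g` in `L²`. -/
def D2Elem {n : ℕ} (u g : E n → ℝ) : Prop :=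
  ∃ φ : ℕ → E n → ℝ, (∀ k, IsTest (φ k)) ∧ LpLim (ENNReal.ofReal (pS n)) φ u ∧
    LpLim 2 (fun k => lap (φ k)) g

/-- the constant `S**` -/
noncomputable def sobolevConst (n : ℕ) : ℝ :=
  sInf {q | ∃ u g : E n → ℝ, D2Elem u g ∧ ¬ u =ᵐ[volume] 0 ∧
    q = (∫ x, g x ^ 2) / (∫ x, |u x| ^ pS n) ^ (2 / pS n)}

end Pool.Agent.K4H49.NV
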