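import Pool.Agent.K4H49.NV.Defs

set_option autoImplicit false

/-!
# Laplacians along the coordinate directions, and a comparison principle
-/

namespace Pool.Agent.K4H49.NV

open Topology Filter MeasureTheory Set Metric InnerProductSpace Laplacian
open scoped ContDiff RealInnerProductSpace

/-- `φ` is differentiable near `0`, with first derivative `A` and second derivative `B` at `0`. -/
def D2 (φ : ℝ → ℝ) (A B : ℝ) : Prop :=
  ∃ φ' : ℝ → ℝ, (∀ᶠ t in 𝓝 0, HasDerivAt φ (φ' t) t) ∧ φ' 0 = A ∧ HasDerivAt φ' B 0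

theorem D2.congr {φ ψ : ℝ → ℝ} {A B : ℝ} (h : D2 φ A B) (e : φ =ᶠ[𝓝 0] ψ) : D2 ψ A B := by
  obtain ⟨φ', h1, h2, h3⟩ := h
  refine ⟨φ', ?_, h2, h3⟩
  filter_upwards [h1, e.eventuallyEq_nhds] with t a b
  exact a.congr_of_eventuallyEq b.symm

theorem D2.unique {φ : ℝ → ℝ} {A B C D : ℝ} (h : D2 φ A B) (k : D2 φ C D) : A = C ∧ B = D := by
  obtain ⟨φ', h1, h2, h3⟩ := h
  obtain ⟨ψ', k1, k2, k3⟩ := k
  have e : φ' =ᶠ[𝓝 0] ψ' := by
    filter_upwards [h1, k1] with t a b using a.unique b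
  refine ⟨by rw [← h2, ← k2]; exact e.self_of_nhds, ?_⟩
  exact h3.unique (k3.congr_of_eventuallyEq e)

theorem D2.sub {φ ψ : ℝ → ℝ} {A B C D : ℝ} (h : D2 φ A B) (k : D2 ψ C D) :
    D2 (fun t => φ t - ψ t) (A - C) (B - D) := by
  obtain ⟨φ', h1, h2, h3⟩ := h
  obtain ⟨ψ', k1, k2, k3⟩ := k
  refine ⟨fun t => φ' t - ψ' t, ?_, by simp only [h2, k2], h3.sub k3⟩
  filter_upwards [h1, k1] with t a b using a.sub b

theorem D2.mul {φ ψ : ℝ → ℝ} {A B C D : ℝ} (h : D2 φ A B) (k : D2 ψ C D) :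
    D2 (fun t => φ t * ψ t) (A * ψ 0 + φ 0 * C) (B * ψ 0 + 2 * A * C + φ 0 * D) := by
  obtain ⟨φ', h1, h2, h3⟩ := h
  obtain ⟨ψ', k1, k2, k3⟩ := k
  refine ⟨fun t => φ' t * ψ t + φ t * ψ' t, ?_, by simp only [h2, k2], ?_⟩
  · filter_upwards [h1, k1] with t a b using a.mul b
  · have := (h3.mul k1.self_of_nhds).add (h1.self_of_nhds.mul k3)
    refine this.congr_deriv ?_
    simp only [h2, k2]; ring

theorem D2.comp {φ : ℝ → ℝ} {A B : ℝ} (h : D2 φ A B) {L L' : ℝ → ℝ} {L2 : ℝ}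
    (hL : ∀ᶠ x in 𝓝 (φ 0), HasDerivAt L (L' x) x) (hL' : HasDerivAt L' L2 (φ 0)) :
    D2 (fun t => L (φ t)) (L' (φ 0) * A) (L2 * A ^ 2 + L' (φ 0) * B) := by
  obtain ⟨φ', h1, h2, h3⟩ := h
  have h0 : HasDerivAt φ (φ' 0) 0 := h1.self_of_nhds
  refine ⟨fun t => L' (φ t) * φ' t, ?_, by simp only [h2], ?_⟩
  · filter_upwards [h1, h0.continuousAt.eventually hL] with t a b
    exact b.comp t a
  · have := (hL'.comp 0 h0).mul h3
    refine this.congr_deriv ?_
    simp only [Function.comp, h2]; ring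

/-- Second derivative test. -/
theorem D2.nonpos {φ : ℝ → ℝ} {A B : ℝ} (h : D2 φ A B) (hm : IsLocalMax φ 0) : B ≤ 0 := by
  obtain ⟨φ', h1, h2, h3⟩ := h
  by_contra hB
  push Not at hB
  have hA : φ' 0 = 0 := hm.hasDerivAt_eq_zero h1.self_of_nhds
  have hs : Tendsto (fun t => (φ' t) / t) (𝓝[>] 0) (𝓝 B) := by
    have := h3.tendsto_slope_zero_right
    simpa [hA, div_eq_inv_mul] using this
  have hpos : ∀ᶠ t in 𝓝[>] (0 : ℝ), 0 < φ' t := by
    filter_upwards [hs.eventually (lt_mem_nhds hB), self_mem_nhdsWithin] with t ht h0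
    have h0' : (0 : ℝ) < t := h0
    have := mul_pos ht h0'
    rwa [div_mul_cancel₀ _ h0'.ne'] at this
  obtain ⟨ε, hε, hε'⟩ := Metric.eventually_nhds_iff.1 (h1.and hm)
  obtain ⟨b, hb, hb'⟩ := mem_nhdsGT_iff_exists_Ioo_subset.1 hpos
  have hb0 : 0 < b := hb
  set t := min (ε / 2) (b / 2) with ht
  have t0 : 0 < t := by positivity
  have tε : t < ε := lt_of_le_of_lt (min_le_left _ _) (by linarith)
  have tb : t < b := lt_of_le_of_lt (min_le_right _ _) (by linarith)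
  obtain ⟨c, hc, hc'⟩ := exists_hasDerivAt_eq_slope φ φ' t0
    (fun x hx => ((hε' (by
      rw [Real.dist_eq, sub_zero, abs_of_nonneg hx.1]; linarith [hx.2])).1).continuousAt.continuousWithinAt)
    (fun x hx => (hε' (by rw [Real.dist_eq, sub_zero, abs_of_pos hx.1]; linarith [hx.2])).1)
  have p : 0 < φ' c := hb' ⟨hc.1, by linarith [hc.2]⟩
  have m : φ t ≤ φ 0 := (hε' (by rw [Real.dist_eq, sub_zero, abs_of_pos t0]; exact tε)).2
  rw [hc'] at p
  have : (φ t - φ 0) / (t - 0) ≤ 0 := div_nonpos_of_nonpos_of_nonneg (by linarith) (by linarith)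
  linarith

/-- basis vectors -/
noncomputable abbrev eb {n : ℕ} (i : Fin n) : E n := EuclideanSpace.basisFun (Fin n) ℝ i

theorem lap_eq {n : ℕ} (u : E n → ℝ) (x : E n) :
    (Δ u) x = ∑ i, fderiv ℝ (fderiv ℝ u) x (eb i) (eb i) := by
  rw [laplacian_eq_iteratedFDeriv_orthonormalBasis u (EuclideanSpace.basisFun (Fin n) ℝ)]
  refine Finset.sum_congr rfl fun i _ => ?_
  rw [iteratedFDeriv_two_apply]
  simp

theorem D2_line {n : ℕ} {u : E n → ℝ} {x : E n} (hu : ContDiffAt ℝ 2 u x) (v : E n) :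
    D2 (fun t => u (x + t • v)) (fderiv ℝ u x v) (fderiv ℝ (fderiv ℝ u) x v v) := by
  have hl : ∀ t : ℝ, HasDerivAt (fun t : ℝ => x + t • v) v t := fun t => by
    simpa using ((hasDerivAt_id t).smul_const v).const_add x
  have h1 : ∀ᶠ y in 𝓝 x, DifferentiableAt ℝ u y := by
    filter_upwards [hu.eventually (by simp)] with y hy using hy.differentiableAt (by norm_num)
  have h2 : DifferentiableAt ℝ (fderiv ℝ u) x :=
    (hu.fderiv_right (m := 1) (by norm_num)).differentiableAt (by norm_num)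
  refine ⟨fun t => fderiv ℝ u (x + t • v) v, ?_, by simp, ?_⟩
  · have hc : Tendsto (fun t : ℝ => x + t • v) (𝓝 0) (𝓝 x) := by
      have := (hl 0).continuousAt.tendsto
      simpa using this
    filter_upwards [hc.eventually h1] with t ht
    exact ht.hasFDerivAt.comp_hasDerivAt t (hl t)
  · have h3 : HasFDerivAt (fderiv ℝ u) (fderiv ℝ (fderiv ℝ u) x) (x + (0 : ℝ) • v) := by
      simpa using h2.hasFDerivAt
    have h4 := h3.comp_hasDerivAt (0 : ℝ) (hl 0)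
    have := h4.clm_apply (hasDerivAt_const (0 : ℝ) v)
    simpa using this

/-- the Laplacian from second derivatives along the coordinate directions -/
theorem lap_of_D2 {n : ℕ} {u : E n → ℝ} {x : E n} (hu : ContDiffAt ℝ 2 u x) {A B : Fin n → ℝ}
    (h : ∀ i, D2 (fun t => u (x + t • eb i)) (A i) (B i)) : (Δ u) x = ∑ i, B i := by
  rw [lap_eq]
  exact Finset.sum_congr rfl fun i _ => ((D2_line hu _).unique (h i)).2

theorem lap_nonpos {n : ℕ} {u : E n → ℝ} {x : E n} (hu : ContDiffAt ℝ 2 u x)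
    (hm : IsLocalMax u x) : (Δ u) x ≤ 0 := by
  rw [lap_eq]
  refine Finset.sum_nonpos fun i _ => (D2_line hu (eb i)).nonpos ?_
  have hc : Tendsto (fun t : ℝ => x + t • (eb i : E n)) (𝓝 0) (𝓝 x) := by
    have : Continuous fun t : ℝ => x + t • (eb i : E n) := by fun_prop
    simpa using this.tendsto 0
  have := hc.eventually hm
  simpa [IsLocalMax, IsMaxFilter] using this

/-- **Comparison principle**. `v` is `C²` in the open set `Ω`, the set where `v ≥ 0` is compact,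
`w ≥ 0` is `C²`, and `Δ w < Δ v` wherever `v > 0`. Then `v ≤ w` in `Ω`. -/
theorem comparison {n : ℕ} {Ω : Set (E n)} (hΩ : IsOpen Ω) {v w : E n → ℝ}
    (hv : ContDiffOn ℝ 2 v Ω) (hK : IsCompact {x | x ∈ Ω ∧ 0 ≤ v x}) (hw : ContDiff ℝ 2 w)
    (hw0 : ∀ x, 0 ≤ w x) (hlt : ∀ x ∈ Ω, 0 < v x → (Δ w) x < (Δ v) x) :
    ∀ x ∈ Ω, v x ≤ w x := by
  intro x1 hx1
  by_contra hcon
  push Not at hcon
  have hv1 : 0 < v x1 := lt_of_le_of_lt (hw0 x1) hcon
  have hcont : ContinuousOn (fun x => v x - w x) {x | x ∈ Ω ∧ 0 ≤ v x} :=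
    (hv.continuousOn.mono fun x hx => hx.1).sub hw.continuous.continuousOn
  obtain ⟨x0, hx0, hmax⟩ := hK.exists_isMaxOn ⟨x1, hx1, hv1.le⟩ hcont
  have h1 : 0 < v x0 - w x0 := lt_of_lt_of_le (sub_pos.2 hcon) (hmax ⟨hx1, hv1.le⟩)
  have h2 : 0 < v x0 := by linarith [hw0 x0]
  have hva : ContDiffAt ℝ 2 v x0 := hv.contDiffAt (hΩ.mem_nhds hx0.1)
  have hnear : ∀ᶠ y in 𝓝 x0, y ∈ Ω ∧ 0 ≤ v y := by
    filter_upwards [hΩ.mem_nhds hx0.1, hva.continuousAt.eventually (lt_mem_nhds h2)] with y a b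
      using ⟨a, le_of_lt b⟩
  have hloc : IsLocalMax (v - w) x0 := by
    filter_upwards [hnear] with y hy
    exact hmax hy
  have h3 : (Δ (v - w)) x0 ≤ 0 := lap_nonpos (hva.sub hw.contDiffAt) hloc
  rw [ContDiffAt.laplacian_sub hva hw.contDiffAt] at h3
  linarith [hlt x0 hx0.1 h2]

end Pool.Agent.K4H49.NV
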