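import Pool.Agent.K4H49.NV.P1

set_option autoImplicit false

/-!
# The kernel `(‖z‖² + ε²) ^ (-m)`
-/

namespace Pool.Agent.K4H49.NV

open Topology Filter MeasureTheory Set Metric InnerProductSpace Laplacian
open scoped ContDiff RealInnerProductSpace

variable {n : ℕ}

/-- `‖z‖² + ε²` -/
noncomputable def sE (ε : ℝ) (z : E n) : ℝ := ‖z‖ ^ 2 + ε ^ 2

theorem sE_pos {ε : ℝ} (hε : 0 < ε) (z : E n) : 0 < sE ε z := by
  unfold sE; positivity

/-- the kernel -/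
noncomputable def kN (m ε : ℝ) (z : E n) : ℝ := sE ε z ^ (-m)

/-- its derivative in the direction `v` -/
noncomputable def kD (m ε : ℝ) (v z : E n) : ℝ := -2 * m * sE ε z ^ (-m - 1) * ⟪z, v⟫

/-- its second derivative in the direction `v` -/
noncomputable def kDD (m ε : ℝ) (v z : E n) : ℝ :=
  4 * m * (m + 1) * sE ε z ^ (-m - 2) * ⟪z, v⟫ ^ 2 - 2 * m * sE ε z ^ (-m - 1) * ‖v‖ ^ 2

theorem hasDerivAt_sE (ε : ℝ) (z v : E n) (t : ℝ) :
    HasDerivAt (fun t : ℝ => sE ε (z + t • v)) (2 * ⟪z + t • v, v⟫) t := by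
  have hl : HasDerivAt (fun t : ℝ => z + t • v) v t := by
    simpa using ((hasDerivAt_id t).smul_const v).const_add z
  have h1 := hl.norm_sq
  have := h1.add_const (ε ^ 2)
  simpa [sE] using this

theorem hasDerivAt_kN {m ε : ℝ} (hε : 0 < ε) (z v : E n) (t : ℝ) :
    HasDerivAt (fun t : ℝ => kN m ε (z + t • v)) (kD m ε v (z + t • v)) t := by
  have h := (hasDerivAt_sE ε z v t).rpow_const (p := -m) (Or.inl (sE_pos hε _).ne')
  refine h.congr_deriv ?_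
  unfold kD; ring

theorem hasDerivAt_kD {m ε : ℝ} (hε : 0 < ε) (z v : E n) (t : ℝ) :
    HasDerivAt (fun t : ℝ => kD m ε v (z + t • v)) (kDD m ε v (z + t • v)) t := by
  have h := (hasDerivAt_sE ε z v t).rpow_const (p := -m - 1) (Or.inl (sE_pos hε _).ne')
  have hl : HasDerivAt (fun t : ℝ => z + t • v) v t := by
    simpa using ((hasDerivAt_id t).smul_const v).const_add z
  have hi : HasDerivAt (fun t : ℝ => ⟪z + t • v, v⟫) ⟪v, v⟫ t := by
    simpa using hl.inner ℝ (hasDerivAt_const t v)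
  have h2 := (h.const_mul (-2 * m)).mul hi
  refine h2.congr_deriv ?_
  unfold kDD
  rw [real_inner_self_eq_norm_sq, show -m - 1 - 1 = -m - 2 by ring]
  ring

theorem continuous_sE (ε : ℝ) : Continuous (sE (n := n) ε) := by
  unfold sE; fun_prop

theorem continuous_sE_rpow {ε : ℝ} (hε : 0 < ε) (a : ℝ) : Continuous fun z : E n => sE ε z ^ a :=
  (continuous_sE ε).rpow_const fun z => Or.inl (sE_pos hε z).ne'

theorem continuous_kN {m ε : ℝ} (hε : 0 < ε) : Continuous (kN (n := n) m ε) :=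
  continuous_sE_rpow hε _

theorem continuous_kD {m ε : ℝ} (hε : 0 < ε) (v : E n) : Continuous (kD m ε v) := by
  unfold kD
  exact (continuous_const.mul (continuous_sE_rpow hε _)).mul (by fun_prop)

theorem continuous_kDD {m ε : ℝ} (hε : 0 < ε) (v : E n) : Continuous (kDD m ε v) := by
  unfold kDD
  exact ((continuous_const.mul (continuous_sE_rpow hε _)).mul (by fun_prop)).sub
    ((continuous_const.mul (continuous_sE_rpow hε _)).mul continuous_const)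

theorem kN_nonneg {m ε : ℝ} (hε : 0 < ε) (z : E n) : 0 ≤ kN m ε z :=
  Real.rpow_nonneg (sE_pos hε z).le _

theorem inner_sq_le {ε : ℝ} (z v : E n) (hv : ‖v‖ = 1) : ⟪z, v⟫ ^ 2 ≤ sE ε z := by
  have h1 := abs_real_inner_le_norm z v
  rw [hv, mul_one] at h1
  have h2 : ⟪z, v⟫ ^ 2 ≤ ‖z‖ ^ 2 := by
    rw [← sq_abs ⟪z, v⟫]
    gcongr
  unfold sE
  nlinarith [sq_nonneg ε]

theorem abs_kD_le {m ε : ℝ} (hm : 0 ≤ m) (hε : 0 < ε) (z v : E n) (hv : ‖v‖ = 1) :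
    |kD m ε v z| ≤ 2 * m * sE ε z ^ (-(m + 1 / 2)) := by
  have h1 : |⟪z, v⟫| ≤ sE ε z ^ (1 / 2 : ℝ) := by
    rw [← Real.sqrt_eq_rpow]
    exact Real.abs_le_sqrt (inner_sq_le z v hv)
  unfold kD
  rw [abs_mul, abs_mul, abs_of_nonneg (Real.rpow_nonneg (sE_pos hε z).le _), abs_mul,
    abs_of_nonneg hm, show |(-2 : ℝ)| = 2 by norm_num]
  calc 2 * m * sE ε z ^ (-m - 1) * |⟪z, v⟫| ≤ 2 * m * sE ε z ^ (-m - 1) * sE ε z ^ (1 / 2 : ℝ) := by
        gcongr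
        exact mul_nonneg (by positivity) (Real.rpow_nonneg (sE_pos hε z).le _)
    _ = 2 * m * sE ε z ^ (-(m + 1 / 2)) := by
        rw [mul_assoc, ← Real.rpow_add (sE_pos hε z)]
        congr 2; ring

theorem abs_kDD_le {m ε : ℝ} (hm : 0 ≤ m) (hε : 0 < ε) (z v : E n) (hv : ‖v‖ = 1) :
    |kDD m ε v z| ≤ (4 * m * (m + 1) + 2 * m) * sE ε z ^ (-(m + 1)) := by
  have h0 := (sE_pos hε z)
  have h1 : 4 * m * (m + 1) * sE ε z ^ (-m - 2) * ⟪z, v⟫ ^ 2 ≤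
      4 * m * (m + 1) * sE ε z ^ (-(m + 1)) := by
    calc 4 * m * (m + 1) * sE ε z ^ (-m - 2) * ⟪z, v⟫ ^ 2 ≤
        4 * m * (m + 1) * sE ε z ^ (-m - 2) * sE ε z := by
          have := inner_sq_le (ε := ε) z v hv
          have h2 : 0 ≤ 4 * m * (m + 1) * sE ε z ^ (-m - 2) := by positivity
          exact mul_le_mul_of_nonneg_left this h2
      _ = 4 * m * (m + 1) * sE ε z ^ (-(m + 1)) := by
          rw [mul_assoc, ← Real.rpow_add_one h0.ne']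
          congr 2; ring
  have h2 : 0 ≤ 4 * m * (m + 1) * sE ε z ^ (-m - 2) * ⟪z, v⟫ ^ 2 := by positivity
  have h3 : 0 ≤ 2 * m * sE ε z ^ (-m - 1) * ‖v‖ ^ 2 := by positivity
  have h4 : 2 * m * sE ε z ^ (-m - 1) * ‖v‖ ^ 2 = 2 * m * sE ε z ^ (-(m + 1)) := by
    rw [hv, show -m - 1 = -(m + 1) by ring]; ring
  unfold kDD
  rw [abs_le]
  constructor
  · have : 0 ≤ 4 * m * (m + 1) * sE ε z ^ (-(m + 1)) := by positivity
    nlinarith
  · have : 0 ≤ 2 * m * sE ε z ^ (-(m + 1)) := by positivity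
    nlinarith

theorem sE_rpow_le {ε : ℝ} (hε : 0 < ε) (z : E n) {a : ℝ} (ha : 0 ≤ a) :
    sE ε z ^ (-a) ≤ (ε ^ 2) ^ (-a) :=
  Real.rpow_le_rpow_of_nonpos (by positivity) (by unfold sE; nlinarith [sq_nonneg ‖z‖]) (by linarith)

theorem sE_rpow_le_norm {ε : ℝ} {z : E n} {r : ℝ} (hr : 0 < r) (hz : r ≤ ‖z‖) {a : ℝ}
    (ha : 0 ≤ a) : sE ε z ^ (-a) ≤ r ^ (-(2 * a)) := by
  have h1 : r ^ 2 ≤ sE ε z := by
    unfold sE
    have : r ^ 2 ≤ ‖z‖ ^ 2 := by gcongr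
    nlinarith [sq_nonneg ε]
  calc sE ε z ^ (-a) ≤ (r ^ 2) ^ (-a) := Real.rpow_le_rpow_of_nonpos (by positivity) h1 (by linarith)
    _ = r ^ (-(2 * a)) := by
      rw [← Real.rpow_natCast, ← Real.rpow_mul hr.le]
      congr 1; push_cast; ring

/-- the density `n (n-2) ε² (‖z‖² + ε²) ^ (-(n+2)/2)` -/
noncomputable def rho (ε : ℝ) (z : E n) : ℝ :=
  n * (n - 2) * ε ^ 2 * sE ε z ^ (-((n : ℝ) + 2) / 2)

theorem sum_inner_sq (z : E n) : ∑ i, ⟪z, (eb i : E n)⟫ ^ 2 = ‖z‖ ^ 2 := by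
  have := (EuclideanSpace.basisFun (Fin n) ℝ).sum_sq_norm_inner_right z
  rw [← this]
  refine Finset.sum_congr rfl fun i _ => ?_
  rw [Real.norm_eq_abs, sq_abs, real_inner_comm]

theorem sum_kDD {ε : ℝ} (hε : 0 < ε) (z : E n) :
    ∑ i, kDD (((n : ℝ) - 2) / 2) ε (eb i) z = - rho ε z := by
  have h0 := sE_pos hε z
  unfold kDD rho
  have hnorm : ∀ i : Fin n, ‖(eb i : E n)‖ = 1 := fun i => by simp
  simp_rw [hnorm]
  rw [Finset.sum_sub_distrib, ← Finset.mul_sum, sum_inner_sq, Finset.sum_const, Finset.card_univ,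
    Fintype.card_fin, nsmul_eq_mul]
  have e1 : sE ε z ^ (-((n : ℝ) - 2) / 2 - 1) = sE ε z ^ (-((n : ℝ) + 2) / 2) * sE ε z := by
    rw [← Real.rpow_add_one h0.ne']
    congr 1; ring
  have e2 : (-(((n : ℝ) - 2) / 2) - 1) = (-((n : ℝ) - 2) / 2 - 1) := by ring
  have e3 : (-(((n : ℝ) - 2) / 2) - 2) = (-((n : ℝ) + 2) / 2) := by ring
  rw [e2, e3, e1]
  have e4 : ‖z‖ ^ 2 = sE ε z - ε ^ 2 := by unfold sE; ring
  rw [e4]
  ring

theorem rho_nonneg (hn : 2 ≤ n) {ε : ℝ} (hε : 0 < ε) (z : E n) : 0 ≤ rho ε z := by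
  have h1 : (2 : ℝ) ≤ n := by exact_mod_cast hn
  have h0 := sE_pos hε z
  unfold rho
  have : (0 : ℝ) ≤ n - 2 := by linarith
  positivity

theorem continuous_rho {ε : ℝ} (hε : 0 < ε) : Continuous (rho (n := n) ε) := by
  unfold rho
  exact continuous_const.mul (continuous_sE_rpow hε _)

theorem rho_one (z : E n) : rho 1 z = n * (n - 2) * (1 + ‖z‖ ^ 2) ^ (-((n : ℝ) + 2) / 2) := by
  unfold rho sE
  rw [one_pow, mul_one, add_comm]

theorem integrable_rho_one : Integrable (rho (n := n) 1) := by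
  have h := integrable_rpow_neg_one_add_norm_sq (E := E n) (μ := volume) (r := (n : ℝ) + 2)
    (by rw [finrank_euclideanSpace_fin]; linarith)
  have : rho (n := n) 1 = fun z : E n => (n * (n - 2) : ℝ) * (1 + ‖z‖ ^ 2) ^ (-((n : ℝ) + 2) / 2) := by
    funext z; exact rho_one z
  rw [this]
  exact h.const_mul _

theorem integrable_norm_rho_one : Integrable (fun z : E n => ‖z‖ * rho 1 z) := by
  have h := (integrable_rpow_neg_one_add_norm_sq (E := E n) (μ := volume) (r := (n : ℝ) + 1)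
    (by rw [finrank_euclideanSpace_fin]; linarith)).const_mul (|(n * (n - 2) : ℝ)|)
  refine h.mono ((continuous_norm.mul (continuous_rho one_pos)).aestronglyMeasurable)
    (Eventually.of_forall fun z => ?_)
  have h0 : (0 : ℝ) < 1 + ‖z‖ ^ 2 := by positivity
  have e1 : ‖‖z‖ * rho 1 z‖ =
      ‖z‖ * (|(n * (n - 2) : ℝ)| * (1 + ‖z‖ ^ 2) ^ (-((n : ℝ) + 2) / 2)) := by
    rw [rho_one, Real.norm_eq_abs, abs_mul,
      abs_mul (n * (n - 2) : ℝ) ((1 + ‖z‖ ^ 2) ^ (-((n : ℝ) + 2) / 2)),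
      abs_of_nonneg (norm_nonneg z), abs_of_pos (Real.rpow_pos_of_pos h0 (-((n : ℝ) + 2) / 2))]
  have e2 : ‖|(n * (n - 2) : ℝ)| * (1 + ‖z‖ ^ 2) ^ (-((n : ℝ) + 1) / 2)‖ =
      |(n * (n - 2) : ℝ)| * (1 + ‖z‖ ^ 2) ^ (-((n : ℝ) + 1) / 2) :=
    Real.norm_of_nonneg (mul_nonneg (abs_nonneg _) (Real.rpow_nonneg h0.le _))
  rw [e1, e2]
  have h1 : ‖z‖ ≤ (1 + ‖z‖ ^ 2) ^ (1 / 2 : ℝ) := by
    rw [← Real.sqrt_eq_rpow]
    exact Real.le_sqrt_of_sq_le (by linarith)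
  calc ‖z‖ * (|(n * (n - 2) : ℝ)| * (1 + ‖z‖ ^ 2) ^ (-((n : ℝ) + 2) / 2))
      ≤ (1 + ‖z‖ ^ 2) ^ (1 / 2 : ℝ) *
        (|(n * (n - 2) : ℝ)| * (1 + ‖z‖ ^ 2) ^ (-((n : ℝ) + 2) / 2)) := by
        gcongr
    _ = |(n * (n - 2) : ℝ)| * (1 + ‖z‖ ^ 2) ^ (-((n : ℝ) + 1) / 2) := by
        have : (1 + ‖z‖ ^ 2) ^ (-((n : ℝ) + 1) / 2) =
            (1 + ‖z‖ ^ 2) ^ (1 / 2 : ℝ) * (1 + ‖z‖ ^ 2) ^ (-((n : ℝ) + 2) / 2) := by
          rw [← Real.rpow_add h0]; congr 1; ring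
        rw [this]; ring

theorem rho_scale {ε : ℝ} (hε : 0 < ε) (z : E n) :
    rho ε z = ((ε ^ n)⁻¹) * rho 1 (ε⁻¹ • z) := by
  have h0 : (0 : ℝ) < 1 + ‖ε⁻¹ • z‖ ^ 2 := by positivity
  have h1 : sE ε z = ε ^ 2 * (1 + ‖ε⁻¹ • z‖ ^ 2) := by
    unfold sE
    rw [norm_smul, norm_inv, Real.norm_of_nonneg hε.le]
    field_simp
    ring
  rw [rho_one, rho, h1, Real.mul_rpow (by positivity) h0.le]
  have h2 : (ε ^ 2) ^ (-((n : ℝ) + 2) / 2) = (ε ^ n)⁻¹ * (ε ^ 2)⁻¹ := by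
    rw [← Real.rpow_natCast ε 2, ← Real.rpow_mul hε.le, ← Real.rpow_natCast ε n,
      ← Real.rpow_neg hε.le, ← Real.rpow_neg hε.le, ← Real.rpow_add hε]
    congr 1; push_cast; ring
  rw [h2]
  field_simp

/-- the mass of `rho ε` -/
noncomputable def mass (n : ℕ) : ℝ := ∫ z : E n, rho 1 z

/-- the first moment of `rho 1` -/
noncomputable def mom (n : ℕ) : ℝ := ∫ z : E n, ‖z‖ * rho 1 z

theorem integral_scale {ε : ℝ} (hε : 0 < ε) (f : E n → ℝ) :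
    ∫ z : E n, (ε ^ n)⁻¹ * f (ε⁻¹ • z) = ∫ z : E n, f z := by
  rw [integral_const_mul, Measure.integral_comp_inv_smul_of_nonneg volume f hε.le,
    finrank_euclideanSpace_fin, smul_eq_mul, ← mul_assoc, inv_mul_cancel₀ (by positivity), one_mul]

theorem integrable_scale {ε : ℝ} (hε : 0 < ε) {f : E n → ℝ} (hf : Integrable f) :
    Integrable fun z : E n => (ε ^ n)⁻¹ * f (ε⁻¹ • z) :=
  (hf.comp_smul (inv_ne_zero hε.ne')).const_mul _

theorem integrable_rho {ε : ℝ} (hε : 0 < ε) : Integrable (rho (n := n) ε) := by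
  have : rho (n := n) ε = fun z => (ε ^ n)⁻¹ * rho 1 (ε⁻¹ • z) := funext fun z => rho_scale hε z
  rw [this]
  exact integrable_scale hε integrable_rho_one

theorem integral_rho {ε : ℝ} (hε : 0 < ε) : ∫ z : E n, rho ε z = mass n := by
  simp_rw [rho_scale hε]
  exact integral_scale hε _

theorem norm_rho_scale {ε : ℝ} (hε : 0 < ε) (z : E n) :
    ‖z‖ * rho ε z = (ε ^ n)⁻¹ * (ε * (‖ε⁻¹ • z‖ * rho 1 (ε⁻¹ • z))) := by
  rw [rho_scale hε, norm_smul, norm_inv, Real.norm_of_nonneg hε.le]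
  field_simp

theorem integrable_norm_rho {ε : ℝ} (hε : 0 < ε) : Integrable (fun z : E n => ‖z‖ * rho ε z) := by
  have : (fun z : E n => ‖z‖ * rho ε z) =
      fun z => (ε ^ n)⁻¹ * ((fun y : E n => ε * (‖y‖ * rho 1 y)) (ε⁻¹ • z)) :=
    funext fun z => norm_rho_scale hε z
  rw [this]
  exact integrable_scale hε (integrable_norm_rho_one.const_mul ε)

theorem integral_norm_rho {ε : ℝ} (hε : 0 < ε) : ∫ z : E n, ‖z‖ * rho ε z = ε * mom n := by
  simp_rw [norm_rho_scale hε]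
  rw [integral_scale hε (fun y : E n => ε * (‖y‖ * rho 1 y)), integral_const_mul]
  rfl

theorem mass_pos (hn : 3 ≤ n) : 0 < mass n := by
  have h1 : (3 : ℝ) ≤ n := by exact_mod_cast hn
  unfold mass
  refine (integral_pos_iff_support_of_nonneg (fun z => rho_nonneg (by omega) one_pos z)
    integrable_rho_one).2 ?_
  have : Function.support (rho (n := n) 1) = univ := by
    rw [eq_univ_iff_forall]
    intro z
    have h0 : (0 : ℝ) < 1 + ‖z‖ ^ 2 := by positivity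
    have h2 : (0 : ℝ) < n - 2 := by linarith
    rw [Function.mem_support, rho_one]
    positivity
  rw [this]
  have : Nonempty (Fin n) := ⟨⟨0, by omega⟩⟩
  exact Measure.measure_univ_pos.2 (NeZero.ne _)

theorem mom_nonneg (hn : 2 ≤ n) : 0 ≤ mom n :=
  integral_nonneg fun z => mul_nonneg (norm_nonneg _) (rho_nonneg hn one_pos z)

end Pool.Agent.K4H49.NV
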