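import Pool.Agent.K4H49.NV.P2

set_option autoImplicit false

/-!
# The potential of a smooth compactly supported function
-/

namespace Pool.Agent.K4H49.NV

open Topology Filter MeasureTheory Set Metric InnerProductSpace Laplacian
open scoped ContDiff RealInnerProductSpace Convolution

variable {n : ℕ}

/-- the potential -/
noncomputable def pot (m ε : ℝ) (F : E n → ℝ) (x : E n) : ℝ := ∫ y, F y * kN m ε (x - y)

/-- the smoothing of `F` -/
noncomputable def smo (ε : ℝ) (F : E n → ℝ) (x : E n) : ℝ := ∫ y, F y * rho ε (x - y)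

theorem pot_eq_conv (m ε : ℝ) (F : E n → ℝ) :
    pot m ε F = F ⋆[ContinuousLinearMap.mul ℝ ℝ, volume] (kN m ε) := by
  funext x
  rw [convolution_def]
  rfl

theorem smo_eq_conv (ε : ℝ) (F : E n → ℝ) :
    smo ε F = F ⋆[ContinuousLinearMap.mul ℝ ℝ, volume] (rho ε) := by
  funext x
  rw [convolution_def]
  rfl

theorem pot_contDiff {m ε : ℝ} (hε : 0 < ε) {F : E n → ℝ} (hF : ContDiff ℝ ∞ F)
    (hc : HasCompactSupport F) : ContDiff ℝ ∞ (pot m ε F) := by
  rw [pot_eq_conv]
  exact hc.contDiff_convolution_left _ hF (continuous_kN hε).locallyIntegrable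

theorem pot_nonneg {m ε : ℝ} (hε : 0 < ε) {F : E n → ℝ} (h0 : ∀ x, 0 ≤ F x) (x : E n) :
    0 ≤ pot m ε F x :=
  integral_nonneg fun y => mul_nonneg (h0 y) (kN_nonneg hε _)

theorem mul_integrable {F K : E n → ℝ} (hF : Continuous F) (hc : HasCompactSupport F)
    (hK : Continuous K) (x : E n) : Integrable fun y => F y * K (x - y) :=
  (hF.mul (hK.comp (continuous_const.sub continuous_id))).integrable_of_hasCompactSupport
    hc.mul_right

theorem hasDerivAt_conv {F K K' : E n → ℝ} (hF : Continuous F) (hc : HasCompactSupport F)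
    (hK : Continuous K) (hK' : Continuous K') {v : E n}
    (hd : ∀ z t, HasDerivAt (fun t : ℝ => K (z + t • v)) (K' (z + t • v)) t) {C : ℝ}
    (hC : ∀ z, |K' z| ≤ C) (x : E n) (t : ℝ) :
    HasDerivAt (fun t : ℝ => ∫ y, F y * K (x + t • v - y)) (∫ y, F y * K' (x + t • v - y)) t := by
  refine (hasDerivAt_integral_of_dominated_loc_of_deriv_le (s := univ)
    (F := fun (t : ℝ) y => F y * K (x + t • v - y)) (F' := fun (t : ℝ) y => F y * K' (x + t • v - y))
    (bound := fun y => |F y| * C) univ_mem ?_ (mul_integrable hF hc hK _)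
    (mul_integrable hF hc hK' _).aestronglyMeasurable ?_ ?_ ?_).2
  · exact Eventually.of_forall fun s => (mul_integrable hF hc hK _).aestronglyMeasurable
  · refine Eventually.of_forall fun y s _ => ?_
    rw [norm_mul, Real.norm_eq_abs, Real.norm_eq_abs]
    exact mul_le_mul_of_nonneg_left (hC _) (abs_nonneg _)
  · exact (hF.abs.integrable_of_hasCompactSupport hc.abs).mul_const C
  · refine Eventually.of_forall fun y s _ => ?_
    have h := hd (x - y) s
    have e : ∀ r : ℝ, x + r • v - y = x - y + r • v := fun r => by abel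
    simp only [e]
    exact h.const_mul (F y)

theorem pot_D2 {m ε : ℝ} (hm : 0 ≤ m) (hε : 0 < ε) {F : E n → ℝ} (hF : Continuous F)
    (hc : HasCompactSupport F) (x : E n) {v : E n} (hv : ‖v‖ = 1) :
    D2 (fun t => pot m ε F (x + t • v)) (∫ y, F y * kD m ε v (x - y))
      (∫ y, F y * kDD m ε v (x - y)) := by
  refine ⟨fun t => ∫ y, F y * kD m ε v (x + t • v - y), ?_, by simp, ?_⟩
  · refine Eventually.of_forall fun t => ?_
    refine hasDerivAt_conv hF hc (continuous_kN hε) (continuous_kD hε v)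
      (fun z t => hasDerivAt_kN hε z v t) (C := 2 * m * (ε ^ 2) ^ (-(m + 1 / 2))) (fun z => ?_) x t
    refine (abs_kD_le hm hε z v hv).trans ?_
    exact mul_le_mul_of_nonneg_left (sE_rpow_le hε z (by linarith)) (by positivity)
  · have := hasDerivAt_conv hF hc (continuous_kD (m := m) hε v) (continuous_kDD hε v)
      (fun z t => hasDerivAt_kD hε z v t)
      (C := (4 * m * (m + 1) + 2 * m) * (ε ^ 2) ^ (-(m + 1))) (fun z => by
        refine (abs_kDD_le hm hε z v hv).trans ?_
        exact mul_le_mul_of_nonneg_left (sE_rpow_le hε z (by linarith)) (by positivity)) x 0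
    simpa using this

theorem two_le_infty : (2 : WithTop ℕ∞) ≤ ∞ := by
  have : ((2 : ℕ∞) : WithTop ℕ∞) ≤ ((⊤ : ℕ∞) : WithTop ℕ∞) := WithTop.coe_le_coe.2 le_top
  exact this

theorem lap_pot (hn : 2 ≤ n) {ε : ℝ} (hε : 0 < ε) {F : E n → ℝ} (hF : ContDiff ℝ ∞ F)
    (hc : HasCompactSupport F) (x : E n) :
    (Δ (pot (((n : ℝ) - 2) / 2) ε F)) x = - smo ε F x := by
  have h1 : (2 : ℝ) ≤ n := by exact_mod_cast hn
  have hm : 0 ≤ ((n : ℝ) - 2) / 2 := by linarith
  rw [lap_of_D2 (((pot_contDiff hε hF hc).of_le two_le_infty).contDiffAt)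
    (fun i => pot_D2 hm hε hF.continuous hc x (v := eb i) (by simp))]
  rw [← integral_finsetSum _ fun i _ => mul_integrable hF.continuous hc (continuous_kDD hε _) x]
  simp_rw [← Finset.mul_sum, sum_kDD hε, mul_neg]
  rw [integral_neg]
  rfl

/-- `smo` in the other variable -/
theorem smo_eq (ε : ℝ) (F : E n → ℝ) (x : E n) : smo ε F x = ∫ z, F (x - z) * rho ε z := by
  unfold smo
  rw [← integral_sub_left_eq_self (fun y => F y * rho ε (x - y)) volume x]
  simp

theorem comp_integrable {ε : ℝ} (hε : 0 < ε) {G : E n → ℝ} (hG : Continuous G)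
    (hc : HasCompactSupport G) (x : E n) : Integrable fun z => G (x - z) * rho ε z := by
  obtain ⟨C, hC⟩ := hc.exists_bound_of_continuous hG
  exact (integrable_rho hε).bdd_mul (hG.comp (continuous_const.sub continuous_id)).aestronglyMeasurable
    (Eventually.of_forall fun z => hC _)

theorem smo_ge (hn : 2 ≤ n) {ε : ℝ} (hε : 0 < ε) {F : E n → ℝ} (hF : Continuous F)
    (hc : HasCompactSupport F) {L : ℝ} (hL : ∀ x z, F x - L * ‖z‖ ≤ F (x - z)) (x : E n) :
    mass n * F x - L * (ε * mom n) ≤ smo ε F x := by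
  rw [smo_eq, ← integral_rho (n := n) hε, ← integral_norm_rho (n := n) hε, mul_comm, ← integral_const_mul,
    ← integral_const_mul, ← integral_sub ((integrable_rho hε).const_mul _)
    ((integrable_norm_rho hε).const_mul _)]
  refine integral_mono (((integrable_rho hε).const_mul _).sub
    ((integrable_norm_rho hε).const_mul _)) (comp_integrable hε hF hc x) fun z => ?_
  have h1 := rho_nonneg hn hε z
  have h2 := mul_le_mul_of_nonneg_right (hL x z) h1
  simp only
  linarith

theorem smo_sq_le (hn : 3 ≤ n) {ε : ℝ} (hε : 0 < ε) {F : E n → ℝ} (hF : Continuous F)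
    (hc : HasCompactSupport F) (x : E n) :
    smo ε F x ^ 2 ≤ mass n * smo ε (fun y => F y ^ 2) x := by
  have hM := mass_pos hn
  have hF2 : Continuous fun y => F y ^ 2 := hF.pow 2
  have hc2 : HasCompactSupport fun y => F y ^ 2 := by
    have : (fun y => F y ^ 2) = fun y => F y * F y := by funext y; ring
    rw [this]; exact hc.mul_left
  set a := smo ε F x with ha
  have h1 := comp_integrable hε hF hc x
  have h2 := comp_integrable hε hF2 hc2 x
  have h3 : 0 ≤ ∫ z, (mass n * F (x - z) - a) ^ 2 * rho ε z :=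
    integral_nonneg fun z => mul_nonneg (sq_nonneg _) (rho_nonneg (by omega) hε z)
  have h4 : ∫ z, (mass n * F (x - z) - a) ^ 2 * rho ε z =
      mass n ^ 2 * smo ε (fun y => F y ^ 2) x - 2 * mass n * a * smo ε F x + a ^ 2 * mass n := by
    have e : ∀ z, (mass n * F (x - z) - a) ^ 2 * rho ε z =
        mass n ^ 2 * (F (x - z) ^ 2 * rho ε z) - 2 * mass n * a * (F (x - z) * rho ε z) +
          a ^ 2 * rho ε z := fun z => by ring
    simp_rw [e]
    have i1 : Integrable fun z => mass n ^ 2 * (F (x - z) ^ 2 * rho ε z) := h2.const_mul _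
    have i2 : Integrable fun z => 2 * mass n * a * (F (x - z) * rho ε z) := h1.const_mul _
    have i3 : Integrable fun z : E n => a ^ 2 * rho ε z := (integrable_rho hε).const_mul _
    have i12 : Integrable fun z => mass n ^ 2 * (F (x - z) ^ 2 * rho ε z) -
      2 * mass n * a * (F (x - z) * rho ε z) := i1.sub i2
    rw [integral_add i12 i3, integral_sub i1 i2, integral_const_mul, integral_const_mul,
      integral_const_mul, integral_rho hε, smo_eq ε F x, smo_eq ε (fun y => F y ^ 2) x]
  rw [h4, ← ha] at h3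
  have h5 : 0 ≤ mass n * (mass n * smo ε (fun y => F y ^ 2) x - a ^ 2) := by nlinarith
  have := nonneg_of_mul_nonneg_right h5 hM
  linarith

theorem smo_integrable {ε : ℝ} (hε : 0 < ε) {F : E n → ℝ} (hF : Continuous F)
    (hc : HasCompactSupport F) : Integrable (smo ε F) := by
  rw [smo_eq_conv]
  exact (hF.integrable_of_hasCompactSupport hc).integrable_convolution _ (integrable_rho hε)

theorem integral_smo {ε : ℝ} (hε : 0 < ε) {F : E n → ℝ} (hF : Continuous F)
    (hc : HasCompactSupport F) : ∫ x, smo ε F x = mass n * ∫ x, F x := by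
  rw [smo_eq_conv, integral_convolution _ (hF.integrable_of_hasCompactSupport hc) (integrable_rho hε),
    integral_rho hε]
  simp [mul_comm]

theorem continuous_smo {ε : ℝ} (hε : 0 < ε) {F : E n → ℝ} (hF : Continuous F)
    (hc : HasCompactSupport F) : Continuous (smo ε F) := by
  rw [smo_eq_conv]
  exact hc.continuous_convolution_left _ hF (continuous_rho hε).locallyIntegrable

/-- `∫ (smo F)² ≤ mass² ∫ F²` -/
theorem smo_L2 (hn : 3 ≤ n) {ε : ℝ} (hε : 0 < ε) {F : E n → ℝ} (hF : Continuous F)
    (hc : HasCompactSupport F) :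
    Integrable (fun x => smo ε F x ^ 2) ∧ ∫ x, smo ε F x ^ 2 ≤ mass n ^ 2 * ∫ x, F x ^ 2 := by
  have hF2 : Continuous fun y => F y ^ 2 := hF.pow 2
  have hc2 : HasCompactSupport fun y => F y ^ 2 := by
    have : (fun y => F y ^ 2) = fun y => F y * F y := by funext y; ring
    rw [this]; exact hc.mul_left
  have h1 := (smo_integrable hε hF2 hc2).const_mul (mass n)
  have h2 : Integrable (fun x => smo ε F x ^ 2) := by
    refine h1.mono' ((continuous_smo hε hF hc).pow 2).aestronglyMeasurable
      (Eventually.of_forall fun x => ?_)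
    rw [Real.norm_of_nonneg (sq_nonneg _)]
    exact smo_sq_le hn hε hF hc x
  refine ⟨h2, ?_⟩
  calc ∫ x, smo ε F x ^ 2 ≤ ∫ x, mass n * smo ε (fun y => F y ^ 2) x :=
        integral_mono h2 h1 fun x => smo_sq_le hn hε hF hc x
    _ = mass n ^ 2 * ∫ x, F x ^ 2 := by
        rw [integral_const_mul, integral_smo hε hF2 hc2]; ring

/-- decay of integrals against compactly supported functions -/
theorem decay {F K : E n → ℝ} (hF : Continuous F) (hc : HasCompactSupport F) (h0 : ∀ x, 0 ≤ F x)
    (hK : Continuous K) {R₀ : ℝ} (hR : ∀ y, F y ≠ 0 → ‖y‖ ≤ R₀) {x : E n} {B : ℝ}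
    (hx : 2 * R₀ ≤ ‖x‖) (hB : ∀ z, ‖x‖ / 2 ≤ ‖z‖ → |K z| ≤ B) :
    |∫ y, F y * K (x - y)| ≤ B * ∫ y, F y := by
  rw [← integral_const_mul]
  refine (abs_integral_le_integral_abs).trans ?_
  refine integral_mono (mul_integrable hF hc hK x).abs
    ((hF.integrable_of_hasCompactSupport hc).const_mul _) fun y => ?_
  simp only
  rw [abs_mul, abs_of_nonneg (h0 y)]
  by_cases hy : F y = 0
  · simp [hy]
  · rw [mul_comm B]
    refine mul_le_mul_of_nonneg_left (hB _ ?_) (h0 y)
    have h1 := hR y hy
    have h2 := norm_sub_norm_le x y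
    linarith

end Pool.Agent.K4H49.NV
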