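import Pool.Agent.K4H49.NV.P3

set_option autoImplicit false

/-!
# Cutting off the potential
-/

namespace Pool.Agent.K4H49.NV

open Topology Filter MeasureTheory Set Metric InnerProductSpace Laplacian
open scoped ContDiff RealInnerProductSpace Convolution

variable {n : ℕ}

/-- the error term -/
noncomputable def err (χ w : E n → ℝ) (R : ℝ) (x : E n) : ℝ :=
  ∑ i, (R⁻¹ ^ 2 * fderiv ℝ (fderiv ℝ χ) (R⁻¹ • x) (eb i) (eb i) * w x +
    2 * (R⁻¹ * fderiv ℝ χ (R⁻¹ • x) (eb i)) * fderiv ℝ w x (eb i))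

theorem D2_scaled {χ : E n → ℝ} (hχ : ContDiff ℝ 2 χ) (r : ℝ) (x v : E n) :
    D2 (fun t => χ (r • (x + t • v))) (r * fderiv ℝ χ (r • x) v)
      (r ^ 2 * fderiv ℝ (fderiv ℝ χ) (r • x) v v) := by
  have h := D2_line (u := χ) (x := r • x) hχ.contDiffAt (r • v)
  have e : (fun t : ℝ => χ (r • (x + t • v))) = fun t : ℝ => χ (r • x + t • r • v) := by
    funext t
    congr 1
    rw [smul_add, smul_comm]
  rw [e]
  have e1 : fderiv ℝ χ (r • x) (r • v) = r * fderiv ℝ χ (r • x) v := by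
    rw [map_smul, smul_eq_mul]
  have e2 : fderiv ℝ (fderiv ℝ χ) (r • x) (r • v) (r • v) =
      r ^ 2 * fderiv ℝ (fderiv ℝ χ) (r • x) v v := by
    rw [map_smul, map_smul, smul_apply, smul_eq_mul, smul_eq_mul]
    ring
  rw [e1, e2] at h
  exact h

theorem cutoff_lap {χ w : E n → ℝ} (hχ : ContDiff ℝ 2 χ) (hw : ContDiff ℝ 2 w) (R : ℝ) (x : E n) :
    (Δ (fun x => χ (R⁻¹ • x) * w x)) x = χ (R⁻¹ • x) * (Δ w) x + err χ w R x := by
  have hc : ContDiff ℝ 2 fun x => χ (R⁻¹ • x) * w x := (hχ.comp (contDiff_const_smul _)).mul hw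
  rw [lap_of_D2 hc.contDiffAt (fun i => (D2_scaled hχ R⁻¹ x (eb i)).mul
    (D2_line (x := x) hw.contDiffAt (eb i)))]
  rw [lap_eq w x, Finset.mul_sum, err, ← Finset.sum_add_distrib]
  refine Finset.sum_congr rfl fun i _ => ?_
  simp only [zero_smul, add_zero]
  ring

/-- the cut-off function -/
noncomputable def bump (n : ℕ) : ContDiffBump (0 : E n) := ⟨1, 2, one_pos, one_lt_two⟩

theorem bump_contDiff : ContDiff ℝ ∞ (bump n : E n → ℝ) := (bump n).contDiff

theorem fderiv_contDiff {G : Type*} [NormedAddCommGroup G] [NormedSpace ℝ G] {χ : E n → G}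
    (h : ContDiff ℝ ∞ χ) : ContDiff ℝ ∞ (fderiv ℝ χ) :=
  h.fderiv_right (m := ∞) (by norm_cast)

theorem dir_smooth {χ : E n → ℝ} (h : ContDiff ℝ ∞ χ) (v : E n) :
    ContDiff ℝ ∞ (fun z => fderiv ℝ χ z v) :=
  (fderiv_contDiff h).clm_apply contDiff_const

theorem cs_bound_one {χ : E n → ℝ} (hχ : ContDiff ℝ ∞ χ) (hs : HasCompactSupport χ) (v : E n) :
    ∃ C : ℝ, 0 ≤ C ∧ ∀ x : E n,
    |fderiv ℝ χ x v| ≤ C ∧ |fderiv ℝ (fderiv ℝ χ) x v v| ≤ C := by
  have s1 : HasCompactSupport fun x => fderiv ℝ χ x v := hs.fderiv_apply (𝕜 := ℝ) v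
  have s2 : HasCompactSupport fun x => fderiv ℝ (fun z => fderiv ℝ χ z v) x v :=
    s1.fderiv_apply (𝕜 := ℝ) v
  have c1 := dir_smooth hχ v
  have c2 := dir_smooth c1 v
  obtain ⟨C1, hC1⟩ := s1.exists_bound_of_continuous c1.continuous
  obtain ⟨C2, hC2⟩ := s2.exists_bound_of_continuous c2.continuous
  refine ⟨max (max C1 C2) 0, le_max_right _ _, fun x => ⟨?_, ?_⟩⟩
  · exact (hC1 x).trans ((le_max_left _ _).trans (le_max_left _ _))
  · have hd : DifferentiableAt ℝ (fderiv ℝ χ) x :=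
      ((fderiv_contDiff hχ).differentiable (by simp)).differentiableAt
    have e : fderiv ℝ (fun z => fderiv ℝ χ z v) x v = fderiv ℝ (fderiv ℝ χ) x v v := by
      rw [fderiv_clm_apply hd (differentiableAt_const v)]
      simp
    have := hC2 x
    rw [e] at this
    exact this.trans ((le_max_right _ _).trans (le_max_left _ _))

theorem cs_bound {χ : E n → ℝ} (hχ : ContDiff ℝ ∞ χ) (hs : HasCompactSupport χ) :
    ∃ C : ℝ, 0 ≤ C ∧ ∀ (x : E n) (i : Fin n),
    |fderiv ℝ χ x (eb i)| ≤ C ∧ |fderiv ℝ (fderiv ℝ χ) x (eb i) (eb i)| ≤ C := by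
  choose C hC0 hC using fun i : Fin n => cs_bound_one hχ hs (eb i)
  have h : ∀ i, C i ≤ ∑ j, C j := fun i =>
    Finset.single_le_sum (fun j _ => hC0 j) (Finset.mem_univ i)
  exact ⟨∑ j, C j, Finset.sum_nonneg fun j _ => hC0 j, fun x i =>
    ⟨((hC i x).1).trans (h i), ((hC i x).2).trans (h i)⟩⟩

theorem bump_fderiv_zero {x : E n} (h : ‖x‖ < 1 ∨ 2 < ‖x‖) :
    fderiv ℝ (bump n) x = 0 ∧ fderiv ℝ (fderiv ℝ (bump n)) x = 0 := by
  have key : ∃ c : ℝ, (bump n : E n → ℝ) =ᶠ[𝓝 x] fun _ => c := by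
    rcases h with h | h
    · refine ⟨1, ?_⟩
      filter_upwards [isOpen_lt continuous_norm continuous_const |>.mem_nhds h] with y hy
      refine (bump n).one_of_mem_closedBall ?_
      rw [mem_closedBall_zero_iff]
      exact (le_of_lt hy)
    · refine ⟨0, ?_⟩
      filter_upwards [isOpen_lt continuous_const continuous_norm |>.mem_nhds h] with y hy
      refine (bump n).zero_of_le_dist ?_
      rw [dist_zero_right]
      exact (le_of_lt hy)
  obtain ⟨c, hc⟩ := key
  have h1 : fderiv ℝ (bump n) =ᶠ[𝓝 x] fun _ => 0 := by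
    have := hc.fderiv (𝕜 := ℝ)
    refine this.trans (Eventually.of_forall fun y => ?_)
    simp
  refine ⟨h1.self_of_nhds, ?_⟩
  have := (h1.fderiv (𝕜 := ℝ)).self_of_nhds
  rw [this]
  simp

theorem err_bound (hn : 3 ≤ n) {ε : ℝ} (hε : 0 < ε) {F : E n → ℝ} (hF : ContDiff ℝ ∞ F)
    (hc : HasCompactSupport F) (h0 : ∀ x, 0 ≤ F x) :
    ∃ K R₂ : ℝ, 0 ≤ K ∧ 0 < R₂ ∧ ∀ R, R₂ ≤ R → ∀ x : E n,
      err (bump n) (pot (((n : ℝ) - 2) / 2) ε F) R x ^ 2 ≤
        (closedBall (0 : E n) (2 * R)).indicator (fun _ => (K * R ^ (-(n : ℝ))) ^ 2) x := by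
  have hn' : (3 : ℝ) ≤ n := by exact_mod_cast hn
  set m : ℝ := ((n : ℝ) - 2) / 2 with hm
  have hm0 : 0 ≤ m := by rw [hm]; linarith
  obtain ⟨R₀, hR₀⟩ := hc.isCompact.isBounded.exists_norm_le
  have hR0 : ∀ y, F y ≠ 0 → ‖y‖ ≤ R₀ := fun y hy => hR₀ y (subset_tsupport F hy)
  obtain ⟨C, hC0, hC⟩ := cs_bound (bump_contDiff (n := n)) (bump n).hasCompactSupport
  set I := ∫ y, F y with hI
  have hI0 : 0 ≤ I := integral_nonneg h0
  set w := pot m ε F with hw
  have hwc : ContDiff ℝ 2 w := (pot_contDiff hε hF hc).of_le two_le_infty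
  refine ⟨n * (C * (2 ^ ((n : ℝ) - 2) * I) + 2 * C * (2 * m * 2 ^ ((n : ℝ) - 1) * I)),
    max (2 * R₀) 1, ?_, ?_, fun R hR x => ?_⟩
  · positivity
  · positivity
  have hR1 : 1 ≤ R := (le_max_right _ _).trans hR
  have hR2 : 2 * R₀ ≤ R := (le_max_left _ _).trans hR
  have hRp : 0 < R := by linarith
  by_cases hx : ‖x‖ < R ∨ 2 * R < ‖x‖
  · have hz : err (bump n) w R x = 0 := by
      have hs : ‖R⁻¹ • x‖ < 1 ∨ 2 < ‖R⁻¹ • x‖ := by
        rw [norm_smul, norm_inv, Real.norm_of_nonneg hRp.le, ← div_eq_inv_mul]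
        rcases hx with h | h
        · left; rw [div_lt_one hRp]; exact h
        · right; rw [lt_div_iff₀ hRp]; exact h
      obtain ⟨e1, e2⟩ := bump_fderiv_zero hs
      unfold err
      refine Finset.sum_eq_zero fun i _ => ?_
      rw [e1, e2]
      simp
    rw [hz, zero_pow two_ne_zero]
    exact indicator_nonneg (fun _ _ => sq_nonneg _) x
  · push Not at hx
    obtain ⟨hx1, hx2⟩ := hx
    rw [indicator_of_mem (by rw [mem_closedBall_zero_iff]; exact hx2)]
    refine sq_le_sq' ?_ ?_ |>.trans le_rfl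
    all_goals
      have hxR : R / 2 ≤ ‖x‖ / 2 := by linarith
      have hRh : 0 < R / 2 := by linarith
      have b1 : |w x| ≤ (R / 2) ^ (-((n : ℝ) - 2)) * I := by
        refine decay hF.continuous hc h0 (continuous_kN (m := m) hε) hR0 (by linarith) fun z hz => ?_
        rw [abs_of_nonneg (kN_nonneg hε z)]
        refine (sE_rpow_le_norm hRh (hxR.trans hz) hm0).trans (le_of_eq ?_)
        congr 1; rw [hm]; ring
      have b2 : ∀ i, |fderiv ℝ w x (eb i)| ≤ 2 * m * (R / 2) ^ (-((n : ℝ) - 1)) * I := by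
        intro i
        have e1 : fderiv ℝ w x (eb i) = ∫ y, F y * kD m ε (eb i) (x - y) :=
          ((D2_line hwc.contDiffAt (eb i)).unique
            (pot_D2 hm0 hε hF.continuous hc x (v := eb i) (by simp))).1
        rw [e1]
        refine decay hF.continuous hc h0 (continuous_kD (m := m) hε (eb i)) hR0 (by linarith)
          fun z hz => ?_
        refine (abs_kD_le hm0 hε z (eb i) (by simp)).trans ?_
        refine mul_le_mul_of_nonneg_left ?_ (by positivity)
        refine (sE_rpow_le_norm hRh (hxR.trans hz) (by linarith)).trans (le_of_eq ?_)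
        congr 1; rw [hm]; ring
      have b3 : |err (bump n) w R x| ≤ n * (C * (2 ^ ((n : ℝ) - 2) * I) +
          2 * C * (2 * m * 2 ^ ((n : ℝ) - 1) * I)) * R ^ (-(n : ℝ)) := by
        unfold err
        refine (Finset.abs_sum_le_sum_abs _ _).trans ?_
        have e3 : (R / 2) ^ (-((n : ℝ) - 2)) = 2 ^ ((n : ℝ) - 2) * (R ^ 2 * R ^ (-(n : ℝ))) := by
          rw [Real.div_rpow hRp.le (by norm_num), Real.rpow_neg (by norm_num : (0 : ℝ) ≤ 2), div_inv_eq_mul,
            ← Real.rpow_natCast R 2, ← Real.rpow_add hRp, mul_comm]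
          congr 2; push_cast; ring
        have e4 : (R / 2) ^ (-((n : ℝ) - 1)) = 2 ^ ((n : ℝ) - 1) * (R * R ^ (-(n : ℝ))) := by
          rw [Real.div_rpow hRp.le (by norm_num), Real.rpow_neg (by norm_num : (0 : ℝ) ≤ 2), div_inv_eq_mul,
            ← Real.rpow_one_add' hRp.le (by linarith), mul_comm]
          congr 2; ring
        have hterm : ∀ i ∈ (Finset.univ : Finset (Fin n)),
            |R⁻¹ ^ 2 * fderiv ℝ (fderiv ℝ (bump n)) (R⁻¹ • x) (eb i) (eb i) * w x +
              2 * (R⁻¹ * fderiv ℝ (bump n) (R⁻¹ • x) (eb i)) * fderiv ℝ w x (eb i)| ≤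
            (C * (2 ^ ((n : ℝ) - 2) * I) + 2 * C * (2 * m * 2 ^ ((n : ℝ) - 1) * I)) *
              R ^ (-(n : ℝ)) := by
          intro i _
          refine (abs_add_le _ _).trans ?_
          rw [abs_mul, abs_mul, abs_mul, abs_mul, abs_mul, abs_of_pos (by positivity : 0 < R⁻¹ ^ 2),
            abs_of_pos (by positivity : 0 < R⁻¹), abs_of_pos (by norm_num : (0 : ℝ) < 2)]
          have t1 : R⁻¹ ^ 2 * |fderiv ℝ (fderiv ℝ (bump n)) (R⁻¹ • x) (eb i) (eb i)| * |w x| ≤
              R⁻¹ ^ 2 * C * ((R / 2) ^ (-((n : ℝ) - 2)) * I) := by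
            have := (hC (R⁻¹ • x) i).2
            gcongr
          have t2 : 2 * (R⁻¹ * |fderiv ℝ (bump n) (R⁻¹ • x) (eb i)|) * |fderiv ℝ w x (eb i)| ≤
              2 * (R⁻¹ * C) * (2 * m * (R / 2) ^ (-((n : ℝ) - 1)) * I) := by
            have := (hC (R⁻¹ • x) i).1
            have := b2 i
            gcongr
          refine (add_le_add t1 t2).trans (le_of_eq ?_)
          rw [e3, e4]
          field_simp
        refine (Finset.sum_le_sum hterm).trans (le_of_eq ?_)
        rw [Finset.sum_const, Finset.card_univ, Fintype.card_fin, nsmul_eq_mul]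
        ring
      have := abs_le.1 b3
      first | exact this.1 | exact this.2

/-- **Cut-off.** -/
theorem cut (hn : 3 ≤ n) {ε : ℝ} (hε : 0 < ε) {F : E n → ℝ} (hF : ContDiff ℝ ∞ F)
    (hc : HasCompactSupport F) (h0 : ∀ x, 0 ≤ F x) {η : ℝ} (hη : 0 < η) (R₁ : ℝ) :
    ∃ φ : E n → ℝ, ContDiff ℝ ∞ φ ∧ HasCompactSupport φ ∧ (∀ x, 0 ≤ φ x) ∧
      (∀ x, ‖x‖ ≤ R₁ → φ x = pot (((n : ℝ) - 2) / 2) ε F x) ∧
      ∫ x, (Δ φ) x ^ 2 ≤ (1 + η) * (mass n ^ 2 * (∫ x, F x ^ 2)) + η := by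
  obtain ⟨K, R₂, hK, hR₂, hb⟩ := err_bound hn hε hF hc h0
  set w := pot (((n : ℝ) - 2) / 2) ε F with hw
  have hwc : ContDiff ℝ ∞ w := pot_contDiff hε hF hc
  set V : ℝ := (volume (ball (0 : E n) 1)).toReal with hV
  have hV0 : 0 ≤ V := ENNReal.toReal_nonneg
  have hlim : Tendsto (fun R : ℝ => (1 + η⁻¹) * (K ^ 2 * 2 ^ n * V) * R ^ (-(n : ℝ))) atTop (𝓝 0) := by
    have := (tendsto_rpow_neg_atTop (y := (n : ℝ)) (by have : (3 : ℝ) ≤ n := by exact_mod_cast hn
                                                       linarith)).const_mul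
      ((1 + η⁻¹) * (K ^ 2 * 2 ^ n * V))
    simpa using this
  obtain ⟨R, hRη, hR⟩ := ((hlim.eventually (ge_mem_nhds hη)).and
    (eventually_ge_atTop (max (max R₁ R₂) 1))).exists
  have hR1 : R₁ ≤ R := (le_max_left _ _).trans ((le_max_left _ _).trans hR)
  have hR2 : R₂ ≤ R := (le_max_right _ _).trans ((le_max_left _ _).trans hR)
  have hRp : 0 < R := lt_of_lt_of_le one_pos ((le_max_right _ _).trans hR)
  refine ⟨fun x => bump n (R⁻¹ • x) * w x, ?_, ?_, ?_, ?_, ?_⟩
  · exact (bump_contDiff.comp (contDiff_const_smul _)).mul hwc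
  · have h1 : HasCompactSupport fun x : E n => bump n (R⁻¹ • x) :=
      (bump n).hasCompactSupport.comp_homeomorph (Homeomorph.smulOfNeZero R⁻¹ (inv_ne_zero hRp.ne'))
    exact h1.mul_right
  · exact fun x => mul_nonneg (bump n).nonneg (pot_nonneg hε h0 x)
  · intro x hx
    have : bump n (R⁻¹ • x) = 1 := by
      refine (bump n).one_of_mem_closedBall ?_
      rw [mem_closedBall_zero_iff, norm_smul, norm_inv, Real.norm_of_nonneg hRp.le, ← div_eq_inv_mul]
      change ‖x‖ / R ≤ 1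
      rw [div_le_one hRp]
      linarith
    simp only [this, one_mul]
  · have hsm := smo_L2 hn hε hF.continuous hc
    set g : E n → ℝ := fun x => (1 + η) * smo ε F x ^ 2 + (1 + η⁻¹) *
      (closedBall (0 : E n) (2 * R)).indicator (fun _ => (K * R ^ (-(n : ℝ))) ^ 2) x with hg
    have hball : volume (closedBall (0 : E n) (2 * R)) ≠ ⊤ := measure_closedBall_lt_top.ne
    have hind : Integrable ((closedBall (0 : E n) (2 * R)).indicator
        (fun _ => (K * R ^ (-(n : ℝ))) ^ 2)) :=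
      (integrable_indicator_iff measurableSet_closedBall).2 (integrableOn_const hball)
    have hgi : Integrable g := (hsm.1.const_mul _).add (hind.const_mul _)
    calc ∫ x, (Δ (fun x => bump n (R⁻¹ • x) * w x)) x ^ 2 ≤ ∫ x, g x := by
          refine integral_mono_of_nonneg (Eventually.of_forall fun x => sq_nonneg _) hgi
            (Eventually.of_forall fun x => ?_)
          simp only
          rw [cutoff_lap (bump_contDiff.of_le two_le_infty) (hwc.of_le two_le_infty), hw,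
            lap_pot (by omega) hε hF hc x]
          set a := bump n (R⁻¹ • x) * -smo ε F x with ha
          set b := err (bump n) (pot (((n : ℝ) - 2) / 2) ε F) R x with hbb
          have h1 : b ^ 2 ≤ _ := hb R hR2 x
          have h2 : a ^ 2 ≤ smo ε F x ^ 2 := by
            rw [ha, mul_pow, neg_sq]
            have h3 : bump n (R⁻¹ • x) ^ 2 ≤ 1 :=
              pow_le_one₀ (bump n).nonneg (bump n).le_one
            nlinarith [sq_nonneg (smo ε F x)]
          have h4 : (a + b) ^ 2 ≤ (1 + η) * a ^ 2 + (1 + η⁻¹) * b ^ 2 := by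
            have h5 : 0 ≤ (η * a - b) ^ 2 := sq_nonneg _
            have h6 : (1 + η) * a ^ 2 + (1 + η⁻¹) * b ^ 2 - (a + b) ^ 2 = η⁻¹ * (η * a - b) ^ 2 := by
              field_simp
              ring
            have h7 : 0 ≤ η⁻¹ * (η * a - b) ^ 2 := by positivity
            linarith
          have h8 : 0 < 1 + η⁻¹ := by positivity
          rw [hg]
          simp only
          have h9 := mul_le_mul_of_nonneg_left h1 h8.le
          have h10 := mul_le_mul_of_nonneg_left h2 (by positivity : 0 ≤ 1 + η)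
          linarith
      _ = (1 + η) * (∫ x, smo ε F x ^ 2) + (1 + η⁻¹) * ((K * R ^ (-(n : ℝ))) ^ 2 * ((2 * R) ^ n * V)) := by
          rw [hg, integral_add (hsm.1.const_mul _) (hind.const_mul _), integral_const_mul,
            integral_const_mul, integral_indicator measurableSet_closedBall, setIntegral_const,
            smul_eq_mul, Measure.real, Measure.addHaar_closedBall _ _ (by positivity),
            ENNReal.toReal_mul, ENNReal.toReal_ofReal (by positivity), finrank_euclideanSpace_fin,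
            mul_comm ((2 * R) ^ n * _)]
      _ = (1 + η) * (∫ x, smo ε F x ^ 2) + (1 + η⁻¹) * (K ^ 2 * 2 ^ n * V) * R ^ (-(n : ℝ)) := by
          have : R ^ (-(n : ℝ)) * R ^ n = 1 := by
            rw [← Real.rpow_natCast R n, ← Real.rpow_add hRp]; simp
          have e : (K * R ^ (-(n : ℝ))) ^ 2 * ((2 * R) ^ n * V) =
              K ^ 2 * 2 ^ n * V * R ^ (-(n : ℝ)) * (R ^ (-(n : ℝ)) * R ^ n) := by
            rw [mul_pow 2 R]; ring
          rw [e, this]; ring
      _ ≤ (1 + η) * (mass n ^ 2 * (∫ x, F x ^ 2)) + η := by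
          have h3 := mul_le_mul_of_nonneg_left hsm.2 (by positivity : 0 ≤ 1 + η)
          linarith

end Pool.Agent.K4H49.NV
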