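import Pool.Agent.K4H49.NV.P4

set_option autoImplicit false

/-!
# A smooth compactly supported majorant with almost the same energy
-/

namespace Pool.Agent.K4H49.NV

open Topology Filter MeasureTheory Set Metric InnerProductSpace Laplacian
open scoped ContDiff RealInnerProductSpace Convolution

variable {n : ℕ}

/-- hypotheses on `u` in the open set `Ω` -/
structure Adm (Ω : Set (E n)) (u : E n → ℝ) : Prop where
  cont : ContinuousOn u (closure Ω)
  smooth : ContDiffOn ℝ 2 u Ω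
  bdry : ∀ x ∈ frontier Ω, u x = 0
  inf : ∃ R : ℝ, ∀ x ∈ closure Ω, R < ‖x‖ → u x = 0

theorem Adm.neg {Ω : Set (E n)} {u : E n → ℝ} (h : Adm Ω u) : Adm Ω (-u) :=
  ⟨h.cont.neg, h.smooth.neg, fun x hx => by simp [h.bdry x hx], by
    obtain ⟨R, hR⟩ := h.inf
    exact ⟨R, fun x hx hx' => by simp [hR x hx hx']⟩⟩

theorem compact_super {Ω : Set (E n)} (hΩ : IsOpen Ω) {v : E n → ℝ} (hv : ContinuousOn v (closure Ω))
    (hb : ∀ x ∈ frontier Ω, v x < 0) {R : ℝ} (hR : ∀ x ∈ closure Ω, R < ‖x‖ → v x < 0) :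
    IsCompact {x | x ∈ Ω ∧ 0 ≤ v x} := by
  have e : {x | x ∈ Ω ∧ 0 ≤ v x} = closure Ω ∩ v ⁻¹' Ici 0 := by
    ext x
    constructor
    · rintro ⟨h1, h2⟩
      exact ⟨subset_closure h1, h2⟩
    · rintro ⟨h1, h2⟩
      refine ⟨?_, h2⟩
      by_contra hx
      have : x ∈ frontier Ω := by
        rw [hΩ.frontier_eq]
        exact ⟨h1, hx⟩
      have := hb x this
      have h2' : 0 ≤ v x := h2
      linarith
  rw [e]
  refine Metric.isCompact_of_isClosed_isBounded
    (hv.preimage_isClosed_of_isClosed isClosed_closure isClosed_Ici) ?_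
  refine (isBounded_closedBall (x := (0 : E n)) (r := R)).subset ?_
  rintro x ⟨h1, h2⟩
  rw [mem_closedBall_zero_iff]
  by_contra hx
  push Not at hx
  have := hR x h1 hx
  have h2' : 0 ≤ v x := h2
  linarith

theorem lap_continuousAt {u : E n → ℝ} {x : E n} (hu : ContDiffAt ℝ 2 u x) :
    ContinuousAt (Δ u) x := by
  have h1 : ContDiffAt ℝ 1 (fderiv ℝ u) x := hu.fderiv_right (m := 1) (by norm_num)
  have h2 : ContinuousAt (fderiv ℝ (fderiv ℝ u)) x :=
    (h1.fderiv_right (m := 0) (by norm_num)).continuousAt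
  have e : (Δ u) = fun x => ∑ i, fderiv ℝ (fderiv ℝ u) x (eb i) (eb i) := funext (lap_eq u)
  rw [e]
  exact tendsto_finsetSum _ fun i _ => (h2.clm_apply continuousAt_const).clm_apply continuousAt_const

theorem lap_sub_const {u : E n → ℝ} {x : E n} (hu : ContDiffAt ℝ 2 u x) (δ : ℝ) :
    (Δ (fun x => u x - δ)) x = (Δ u) x := by
  have h := ContDiffAt.laplacian_sub hu (contDiffAt_const (c := δ))
  rw [laplacian_const] at h
  have e : (fun x => u x - δ) = u - (fun _ : E n => δ) := rfl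
  rw [e, h]
  simp

/-- comparison, one sign -/
theorem half {Ω : Set (E n)} (hΩ : IsOpen Ω) {u w : E n → ℝ} (hu : Adm Ω u) {δ : ℝ} (hδ : 0 < δ)
    (hw : ContDiff ℝ 2 w) (hw0 : ∀ x, 0 ≤ w x)
    (hlt : ∀ x ∈ Ω, δ < u x → (Δ w) x < (Δ u) x) : ∀ x ∈ Ω, u x - δ ≤ w x := by
  obtain ⟨R, hR⟩ := hu.inf
  refine comparison hΩ (hu.smooth.sub contDiffOn_const) ?_ hw hw0 fun x hx hv => ?_
  · exact compact_super hΩ (hu.cont.sub continuousOn_const)
      (fun x hx => by rw [hu.bdry x hx]; linarith) (R := R)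
      (fun x hx hx' => by rw [hR x hx hx']; linarith)
  · rw [lap_sub_const (hu.smooth.contDiffAt (hΩ.mem_nhds hx))]
    exact hlt x hx (by linarith)

theorem lap_const_mul {f : E n → ℝ} {x : E n} (hf : ContDiffAt ℝ 2 f x) (c : ℝ) :
    (Δ (fun x => c * f x)) x = c * (Δ f) x := by
  have h := laplacian_smul c hf
  have e : (fun x => c * f x) = c • f := rfl
  rw [e, h]
  simp

/-- the majorant -/
theorem majorant (hn : 3 ≤ n) {Ω : Set (E n)} (hΩ : IsOpen Ω) {u : E n → ℝ} (hu : Adm Ω u)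
    (hi : IntegrableOn (fun x => (Δ u) x ^ 2) Ω) {δ η : ℝ} (hδ : 0 < δ) (hη : 0 < η) :
    ∃ φ : E n → ℝ, ContDiff ℝ ∞ φ ∧ HasCompactSupport φ ∧ (∀ x, 0 ≤ φ x) ∧
      (∀ x ∈ Ω, |u x| - δ ≤ φ x) ∧
      ∫ x, (Δ φ) x ^ 2 ≤ (1 + η) * ((1 + η) * (∫ x in Ω, (Δ u) x ^ 2) + η) + η := by
  have hM := mass_pos hn
  obtain ⟨R, hR⟩ := hu.inf
  set K : Set (E n) := {x | x ∈ Ω ∧ 0 ≤ |u x| - δ} with hK
  have hKc : IsCompact K := compact_super hΩ (hu.cont.abs.sub continuousOn_const)
    (fun x hx => by simp [hu.bdry x hx, hδ]) (R := R) (fun x hx hx' => by simp [hR x hx hx', hδ])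
  obtain ⟨K', hK'c, hKK', hK'Ω⟩ := exists_compact_between hKc hΩ fun x hx => hx.1
  obtain ⟨f, hf1, hf0, -, hf⟩ := exists_continuous_one_zero_of_isCompact hKc
    (isOpen_interior (s := K')).isClosed_compl
    (disjoint_left.2 fun x hx hx' => hx' (hKK' hx))
  have hf0' : ∀ x, x ∉ K' → f x = 0 := fun x hx => hf0 fun h => hx (interior_subset h)
  -- the continuous function `g`
  set g : E n → ℝ := fun x => f x * |(Δ u) x| with hg
  have hgc : Continuous g := by
    rw [continuous_iff_continuousAt]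
    intro x
    by_cases hx : x ∈ Ω
    · exact f.continuous.continuousAt.mul
        (lap_continuousAt (hu.smooth.contDiffAt (hΩ.mem_nhds hx))).abs
    · have hx' : x ∈ K'ᶜ := fun h => hx (hK'Ω h)
      have : g =ᶠ[𝓝 x] fun _ => 0 := by
        filter_upwards [hK'c.isClosed.isOpen_compl.mem_nhds hx'] with y hy
        simp only [hg, hf0' y hy, zero_mul]
      exact (continuousAt_const.congr this.symm)
  have hg0 : ∀ x, 0 ≤ g x := fun x => mul_nonneg (hf x).1 (abs_nonneg _)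
  have hgK : ∀ x ∈ K, g x = |(Δ u) x| := fun x hx => by simp [hg, hf1 hx]
  have hg2 : ∀ x, g x ^ 2 ≤ Ω.indicator (fun x => (Δ u) x ^ 2) x := by
    intro x
    by_cases hx : x ∈ Ω
    · rw [indicator_of_mem hx, hg]
      simp only
      rw [mul_pow, sq_abs]
      have := pow_le_one₀ (n := 2) (hf x).1 (hf x).2
      nlinarith [sq_nonneg ((Δ u) x)]
    · have : g x = 0 := by
        simp only [hg, hf0' x (fun h => hx (hK'Ω h)), zero_mul]
      rw [this, indicator_of_notMem hx]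
      norm_num
  -- the cut-off `ψ`
  obtain ⟨R', hR'⟩ := hKc.isBounded.exists_norm_le
  set ψ : ContDiffBump (0 : E n) := ⟨max R' 1, max R' 1 + 1, by positivity, by linarith⟩ with hψ
  have hψ1 : ∀ x ∈ K, ψ x = 1 := fun x hx => by
    refine ψ.one_of_mem_closedBall ?_
    rw [mem_closedBall_zero_iff]
    exact (hR' x hx).trans (le_max_left _ _)
  have hψi : Integrable (fun x => ψ x ^ 2) := by
    have e1 : (fun x => ψ x ^ 2) = fun x => ψ x * ψ x := by funext y; ring
    rw [e1]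
    exact (ψ.continuous.mul ψ.continuous).integrable_of_hasCompactSupport ψ.hasCompactSupport.mul_left
  set P : ℝ := ∫ x, ψ x ^ 2 with hP
  have hP0 : 0 ≤ P := integral_nonneg fun x => sq_nonneg _
  obtain ⟨e, he, hep⟩ : ∃ e : ℝ, 0 < e ∧ (1 + η⁻¹) * (9 * e ^ 2 * P) ≤ η := by
    have : Tendsto (fun e : ℝ => (1 + η⁻¹) * (9 * e ^ 2 * P)) (𝓝[>] 0) (𝓝 0) := by
      have h : Continuous fun e : ℝ => (1 + η⁻¹) * (9 * e ^ 2 * P) := by fun_prop
      have := h.tendsto 0
      simp only [ne_eq, OfNat.ofNat_ne_zero, not_false_eq_true, zero_pow, mul_zero, zero_mul] at this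
      exact this.mono_left nhdsWithin_le_nhds
    obtain ⟨e, h1, h2⟩ := ((this.eventually (ge_mem_nhds hη)).and self_mem_nhdsWithin).exists
    exact ⟨e, h2, h1⟩
  obtain ⟨G, hG, hGa, -⟩ := (hgc.add (continuous_const (y := 2 * e))).exists_contDiff_approx ⊤
    (continuous_const (y := e)) (fun _ => he)
  have hG1 : ∀ x, g x + e < G x ∧ G x < g x + 3 * e := by
    intro x
    have := hGa x
    rw [Real.dist_eq, abs_lt] at this
    simp only [Pi.add_apply] at this
    constructor <;> linarith [this.1, this.2]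
  set F : E n → ℝ := fun x => ψ x * G x with hFd
  have hF : ContDiff ℝ ∞ F := ψ.contDiff.mul hG
  have hFc : HasCompactSupport F := ψ.hasCompactSupport.mul_right
  have hF0 : ∀ x, 0 ≤ F x := fun x => mul_nonneg ψ.nonneg (by linarith [hg0 x, (hG1 x).1])
  have hFK : ∀ x ∈ K, |(Δ u) x| + e < F x := by
    intro x hx
    rw [← hgK x hx, hFd]
    simp only [hψ1 x hx, one_mul]
    exact (hG1 x).1
  have hF2 : ∫ x, F x ^ 2 ≤ (1 + η) * (∫ x in Ω, (Δ u) x ^ 2) + η := by
    have hig : Integrable (Ω.indicator fun x => (Δ u) x ^ 2) := hi.integrable_indicator hΩ.measurableSet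
    have h1 : ∀ x, F x ^ 2 ≤ (1 + η) * Ω.indicator (fun x => (Δ u) x ^ 2) x +
        (1 + η⁻¹) * (9 * e ^ 2 * ψ x ^ 2) := by
      intro x
      have a1 : F x ≤ g x + 3 * e * ψ x := by
        have b1 : F x ≤ ψ x * (g x + 3 * e) := mul_le_mul_of_nonneg_left (hG1 x).2.le ψ.nonneg
        have b2 : ψ x * g x ≤ g x := mul_le_of_le_one_left (hg0 x) ψ.le_one
        linarith
      have a2 : F x ^ 2 ≤ (g x + 3 * e * ψ x) ^ 2 := pow_le_pow_left₀ (hF0 x) a1 2
      have a3 : (g x + 3 * e * ψ x) ^ 2 ≤ (1 + η) * g x ^ 2 + (1 + η⁻¹) * (3 * e * ψ x) ^ 2 := by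
        have h6 : (1 + η) * g x ^ 2 + (1 + η⁻¹) * (3 * e * ψ x) ^ 2 - (g x + 3 * e * ψ x) ^ 2 =
            η⁻¹ * (η * g x - 3 * e * ψ x) ^ 2 := by
          field_simp
          ring
        have h7 : 0 ≤ η⁻¹ * (η * g x - 3 * e * ψ x) ^ 2 := by positivity
        linarith
      have a4 := mul_le_mul_of_nonneg_left (hg2 x) (by positivity : 0 ≤ 1 + η)
      have a5 : (1 + η⁻¹) * (3 * e * ψ x) ^ 2 = (1 + η⁻¹) * (9 * e ^ 2 * ψ x ^ 2) := by ring
      linarith
    have h2 : Integrable fun x => (1 + η⁻¹) * (9 * e ^ 2 * ψ x ^ 2) := (hψi.const_mul _).const_mul _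
    calc ∫ x, F x ^ 2 ≤ ∫ x, ((1 + η) * Ω.indicator (fun x => (Δ u) x ^ 2) x +
          (1 + η⁻¹) * (9 * e ^ 2 * ψ x ^ 2)) :=
          integral_mono_of_nonneg (Eventually.of_forall fun x => sq_nonneg _)
            ((hig.const_mul _).add h2) (Eventually.of_forall h1)
      _ = (1 + η) * (∫ x in Ω, (Δ u) x ^ 2) + (1 + η⁻¹) * (9 * e ^ 2 * P) := by
          rw [integral_add (hig.const_mul _) h2, integral_const_mul, integral_const_mul,
            integral_const_mul, integral_indicator hΩ.measurableSet]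
      _ ≤ _ := by linarith
  -- Lipschitz constant and the parameter of the kernel
  obtain ⟨L, hL⟩ := hF.lipschitzWith_of_hasCompactSupport hFc (by simp)
  have hL' : ∀ x z, F x - L * ‖z‖ ≤ F (x - z) := by
    intro x z
    have := hL.dist_le_mul x (x - z)
    rw [Real.dist_eq, dist_eq_norm, sub_sub_cancel] at this
    linarith [le_abs_self (F x - F (x - z))]
  have hmom := mom_nonneg (n := n) (by omega)
  have hLm : 0 ≤ (L : ℝ) * mom n := mul_nonneg L.2 hmom
  set ε : ℝ := e * mass n / (L * mom n + 1) with hεd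
  have hε : 0 < ε := by positivity
  have hεe : L * (ε * mom n) ≤ e * mass n := by
    have : L * (ε * mom n) = e * mass n * ((L * mom n) / (L * mom n + 1)) := by
      rw [hεd]; field_simp
    rw [this]
    refine mul_le_of_le_one_right (by positivity) ?_
    rw [div_le_one (by positivity)]
    linarith
  set w : E n → ℝ := fun x => (mass n)⁻¹ * pot (((n : ℝ) - 2) / 2) ε F x with hw
  have hpc : ContDiff ℝ ∞ (pot (((n : ℝ) - 2) / 2) ε F) := pot_contDiff hε hF hFc
  have hwc : ContDiff ℝ 2 w := (contDiff_const.mul hpc).of_le two_le_infty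
  have hw0 : ∀ x, 0 ≤ w x := fun x => mul_nonneg (inv_nonneg.2 hM.le) (pot_nonneg hε hF0 x)
  have hwl : ∀ x ∈ K, (Δ w) x < - |(Δ u) x| := by
    intro x hx
    rw [hw, lap_const_mul (hpc.of_le two_le_infty).contDiffAt, lap_pot (by omega) hε hF hFc]
    have h1 := smo_ge (n := n) (by omega) hε hF.continuous hFc hL' x
    have h2 := hFK x hx
    have h3 : mass n * (|(Δ u) x| + e) < mass n * F x := mul_lt_mul_of_pos_left h2 hM
    have h4 : mass n * |(Δ u) x| < smo ε F x := by nlinarith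
    have h5 : |(Δ u) x| < (mass n)⁻¹ * smo ε F x := by
      rw [inv_mul_eq_div, lt_div_iff₀ hM]; linarith
    linarith
  have hcmp : ∀ x ∈ Ω, |u x| - δ ≤ w x := by
    intro x hx
    have h1 : u x - δ ≤ w x := half hΩ hu hδ hwc hw0 (fun y hy hy' => by
      have hyK : y ∈ K := ⟨hy, by linarith [le_abs_self (u y)]⟩
      exact lt_of_lt_of_le (hwl y hyK) (neg_abs_le _)) x hx
    have h2 : -u x - δ ≤ w x := half hΩ hu.neg hδ hwc hw0 (fun y hy hy' => by
      have hyK : y ∈ K := ⟨hy, by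
        have : δ < -u y := hy'
        linarith [neg_le_abs (u y)]⟩
      rw [laplacian_neg]
      refine lt_of_lt_of_le (hwl y hyK) ?_
      simp only [Pi.neg_apply]
      linarith [le_abs_self ((Δ u) y)]) x hx
    rcases abs_cases (u x) with h | h <;> rw [h.1] <;> linarith
  -- cut-off
  set η' : ℝ := min η (η * mass n ^ 2) with hη'
  have hη'p : 0 < η' := lt_min hη (by positivity)
  obtain ⟨φ, p1, p2, p3, p4, p5⟩ := cut hn hε hF hFc hF0 hη'p R'
  refine ⟨fun x => (mass n)⁻¹ * φ x, contDiff_const.mul p1, p2.mul_left, fun x =>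
    mul_nonneg (inv_nonneg.2 hM.le) (p3 x), fun x hx => ?_, ?_⟩
  · by_cases hxK : x ∈ K
    · simp only
      rw [p4 x (hR' x hxK)]
      exact hcmp x hx
    · have : |u x| - δ < 0 := by
        by_contra hcon
        push Not at hcon
        exact hxK ⟨hx, hcon⟩
      exact this.le.trans (mul_nonneg (inv_nonneg.2 hM.le) (p3 x))
  · have e1 : ∀ x, (Δ fun x => (mass n)⁻¹ * φ x) x ^ 2 = (mass n ^ 2)⁻¹ * (Δ φ) x ^ 2 := by
      intro x
      rw [lap_const_mul (p1.of_le two_le_infty).contDiffAt, mul_pow, inv_pow]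
    simp_rw [e1]
    rw [integral_const_mul, inv_mul_le_iff₀ (by positivity)]
    refine p5.trans ?_
    have q1 : η' ≤ η := min_le_left _ _
    have q2 : η' ≤ η * mass n ^ 2 := min_le_right _ _
    have q3 : 0 ≤ ∫ x, F x ^ 2 := integral_nonneg fun x => sq_nonneg _
    have q4 : (1 + η') * (mass n ^ 2 * ∫ x, F x ^ 2) ≤
        (1 + η) * (mass n ^ 2 * ((1 + η) * (∫ x in Ω, (Δ u) x ^ 2) + η)) := by
      gcongr
    linarith

end Pool.Agent.K4H49.NV
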