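import Pool.Agent.K4H49.NV.P5

set_option autoImplicit false

/-!
# The inequality on an open set
-/

namespace Pool.Agent.K4H49.NV

open Topology Filter MeasureTheory Set Metric InnerProductSpace Laplacian
open scoped ContDiff RealInnerProductSpace Convolution ENNReal

variable {n : ℕ}

theorem Adm.bound {Ω : Set (E n)} {u : E n → ℝ} (hu : Adm Ω u) :
    ∃ B R : ℝ, 0 ≤ B ∧ 0 ≤ R ∧ ∀ x ∈ Ω, |u x| ≤ (closedBall (0 : E n) R).indicator (fun _ => B) x := by
  obtain ⟨R, hR⟩ := hu.inf
  have hK : IsCompact (closure Ω ∩ closedBall (0 : E n) (max R 0)) :=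
    (isCompact_closedBall _ _).inter_left isClosed_closure
  obtain ⟨B, hB⟩ := hK.exists_bound_of_continuousOn (hu.cont.mono inter_subset_left)
  refine ⟨max B 0, max R 0, le_max_right _ _, le_max_right _ _, fun x hx => ?_⟩
  by_cases h : x ∈ closedBall (0 : E n) (max R 0)
  · rw [indicator_of_mem h]
    exact (hB x ⟨subset_closure hx, h⟩).trans (le_max_left _ _)
  · rw [indicator_of_notMem h, hR x (subset_closure hx), abs_zero]
    rw [mem_closedBall_zero_iff] at h
    push Not at h
    exact lt_of_le_of_lt (le_max_left _ _) h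

theorem Adm.integrable_rpow {Ω : Set (E n)} (hΩ : IsOpen Ω) {u : E n → ℝ} (hu : Adm Ω u) {q : ℝ}
    (hq : 0 < q) : IntegrableOn (fun x => |u x| ^ q) Ω := by
  obtain ⟨B, R, hB, hR, h⟩ := hu.bound
  have hm : AEStronglyMeasurable (fun x => |u x| ^ q) (volume.restrict Ω) := by
    refine ContinuousOn.aestronglyMeasurable ?_ hΩ.measurableSet
    exact (hu.cont.mono subset_closure).abs.rpow_const fun x _ => Or.inr hq.le
  have hg : Integrable ((closedBall (0 : E n) R).indicator fun _ => B ^ q) (volume.restrict Ω) :=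
    ((integrable_indicator_iff measurableSet_closedBall).2
      (integrableOn_const measure_closedBall_lt_top.ne)).integrableOn
  refine hg.mono' hm ?_
  refine (ae_restrict_iff' hΩ.measurableSet).2 (Eventually.of_forall fun x hx => ?_)
  rw [Real.norm_of_nonneg (Real.rpow_nonneg (abs_nonneg _) _)]
  have h1 := h x hx
  by_cases hx' : x ∈ closedBall (0 : E n) R
  · rw [indicator_of_mem hx'] at h1 ⊢
    exact Real.rpow_le_rpow (abs_nonneg _) h1 hq.le
  · rw [indicator_of_notMem hx'] at h1 ⊢
    have : |u x| = 0 := le_antisymm h1 (abs_nonneg _)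
    rw [this, Real.zero_rpow hq.ne']

theorem cs_integrable_rpow {φ : E n → ℝ} (h1 : Continuous φ) (h2 : HasCompactSupport φ) {q : ℝ}
    (hq : 0 < q) : Integrable fun x => |φ x| ^ q := by
  refine (h1.abs.rpow_const fun x => Or.inr hq.le).integrable_of_hasCompactSupport ?_
  exact h2.comp_left (g := fun y : ℝ => |y| ^ q) (by simp [Real.zero_rpow hq.ne'])

/-- **The inequality on an open set.** -/
theorem main_ineq (hn : 3 ≤ n) {q : ℝ} (hq : 0 < q) {S : ℝ} (hS0 : 0 ≤ S)
    (hS : ∀ φ : E n → ℝ, ContDiff ℝ ∞ φ → HasCompactSupport φ →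
      S * (∫ x, |φ x| ^ q) ^ (2 / q) ≤ ∫ x, (Δ φ) x ^ 2)
    {Ω : Set (E n)} (hΩ : IsOpen Ω) {u : E n → ℝ} (hu : Adm Ω u)
    (hi : IntegrableOn (fun x => (Δ u) x ^ 2) Ω) :
    S * (∫ x in Ω, |u x| ^ q) ^ (2 / q) ≤ ∫ x in Ω, (Δ u) x ^ 2 := by
  set I := ∫ x in Ω, (Δ u) x ^ 2 with hI
  have hq2 : 0 ≤ 2 / q := by positivity
  have hui := hu.integrable_rpow hΩ hq
  -- fixed `δ`
  have step : ∀ δ : ℝ, 0 < δ → S * (∫ x in Ω, (max (|u x| - δ) 0) ^ q) ^ (2 / q) ≤ I := by
    intro δ hδ
    have h1 : ∀ η : ℝ, 0 < η → S * (∫ x in Ω, (max (|u x| - δ) 0) ^ q) ^ (2 / q) ≤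
        (1 + η) * ((1 + η) * I + η) + η := by
      intro η hη
      obtain ⟨φ, p1, p2, p3, p4, p5⟩ := majorant hn hΩ hu hi hδ hη
      refine le_trans ?_ (p5)
      refine le_trans ?_ (hS φ p1 p2)
      refine mul_le_mul_of_nonneg_left ?_ hS0
      have hφi := cs_integrable_rpow p1.continuous p2 hq
      have hb : ∀ x, x ∈ Ω → (max (|u x| - δ) 0) ^ q ≤ |φ x| ^ q := fun x hx => by
        rw [abs_of_nonneg (p3 x)]
        exact Real.rpow_le_rpow (le_max_right _ _) (max_le (p4 x hx) (p3 x)) hq.le
      refine Real.rpow_le_rpow (setIntegral_nonneg hΩ.measurableSet fun x _ =>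
        Real.rpow_nonneg (le_max_right _ _) _) ?_ hq2
      calc ∫ x in Ω, (max (|u x| - δ) 0) ^ q ≤ ∫ x in Ω, |φ x| ^ q := by
            refine integral_mono_of_nonneg (Eventually.of_forall fun x =>
              Real.rpow_nonneg (le_max_right _ _) _) hφi.integrableOn ?_
            exact (ae_restrict_iff' hΩ.measurableSet).2 (Eventually.of_forall hb)
        _ ≤ ∫ x, |φ x| ^ q := setIntegral_le_integral hφi
            (Eventually.of_forall fun x => Real.rpow_nonneg (abs_nonneg _) _)
    have h2 : Tendsto (fun η : ℝ => (1 + η) * ((1 + η) * I + η) + η) (𝓝[>] 0) (𝓝 I) := by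
      have h : Continuous fun η : ℝ => (1 + η) * ((1 + η) * I + η) + η := by fun_prop
      have := h.tendsto 0
      simp only [add_zero, one_mul] at this
      exact this.mono_left nhdsWithin_le_nhds
    refine ge_of_tendsto h2 ?_
    filter_upwards [self_mem_nhdsWithin] with η hη using h1 η hη
  -- `δ → 0`
  have hlim : Tendsto (fun δ : ℝ => ∫ x in Ω, (max (|u x| - δ) 0) ^ q) (𝓝[>] 0)
      (𝓝 (∫ x in Ω, |u x| ^ q)) := by
    refine tendsto_integral_filter_of_dominated_convergence (fun x => |u x| ^ q) ?_ ?_ hui ?_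
    · refine Eventually.of_forall fun δ => ?_
      refine ContinuousOn.aestronglyMeasurable ?_ hΩ.measurableSet
      refine ContinuousOn.rpow_const ?_ fun x _ => Or.inr hq.le
      exact ((hu.cont.mono subset_closure).abs.sub continuousOn_const).sup continuousOn_const
    · filter_upwards [self_mem_nhdsWithin] with δ hδ
      have hδ' : (0 : ℝ) < δ := hδ
      refine Eventually.of_forall fun x => ?_
      rw [Real.norm_of_nonneg (Real.rpow_nonneg (le_max_right _ _) _)]
      exact Real.rpow_le_rpow (le_max_right _ _) (max_le (by linarith) (abs_nonneg _)) hq.le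
    · refine Eventually.of_forall fun x => ?_
      have h : Continuous fun δ : ℝ => (max (|u x| - δ) 0) ^ q :=
        ((continuous_const.sub continuous_id).max continuous_const).rpow_const
          fun _ => Or.inr hq.le
      have := h.tendsto 0
      simp only [sub_zero] at this
      rw [max_eq_left (abs_nonneg _)] at this
      exact this.mono_left nhdsWithin_le_nhds
  have hlim2 := (hlim.rpow_const (p := 2 / q) (Or.inr hq2)).const_mul S
  refine le_of_tendsto hlim2 ?_
  filter_upwards [self_mem_nhdsWithin] with δ hδ using step δ hδ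

end Pool.Agent.K4H49.NV
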