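import Pool.Agent.K4H49.NV.P6

set_option autoImplicit false

/-!
# The constants of the problem
-/

namespace Pool.Agent.K4H49.NV

open Topology Filter MeasureTheory Set Metric InnerProductSpace Laplacian
open scoped ContDiff RealInnerProductSpace Convolution ENNReal

variable {n : ℕ}

theorem pS_pos (hn : 5 ≤ n) : 0 < pS n := by
  have h : (5 : ℝ) ≤ n := by exact_mod_cast hn
  unfold pS
  have : (0 : ℝ) < n - 4 := by linarith
  positivity

theorem two_le_pS (hn : 5 ≤ n) : 2 ≤ pS n := by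
  have h : (5 : ℝ) ≤ n := by exact_mod_cast hn
  unfold pS
  rw [le_div_iff₀ (by linarith)]
  linarith

theorem cone_open (S : Set (sphere (0 : E n) 1)) (hS : IsOpen S) : IsOpen (cone S) := by
  rw [isOpen_iff_mem_nhds]
  rintro x ⟨r, hr, σ, hσ, rfl⟩
  have hσn : ‖(σ : E n)‖ = 1 := by simp
  have hx0 : (r • (σ : E n)) ≠ 0 := by
    intro h
    have := congrArg norm h
    rw [norm_smul, hσn, norm_zero, mul_one, Real.norm_of_nonneg hr.le] at this
    linarith
  obtain ⟨U, hU, hUS⟩ := isOpen_induced_iff.1 hS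
  have hc : ContinuousAt (fun y : E n => ‖y‖⁻¹ • y) (r • (σ : E n)) := by
    have h1 : ContinuousAt (fun y : E n => ‖y‖⁻¹) (r • (σ : E n)) :=
      (continuous_norm (E := E n)).continuousAt.inv₀ (norm_ne_zero_iff.2 hx0)
    exact h1.smul (continuous_id (X := E n)).continuousAt
  have hval : ‖r • (σ : E n)‖⁻¹ • (r • (σ : E n)) = σ := by
    rw [norm_smul, hσn, mul_one, Real.norm_of_nonneg hr.le, smul_smul, inv_mul_cancel₀ hr.ne', one_smul]
  have hσU : (σ : E n) ∈ U := by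
    have : σ ∈ Subtype.val ⁻¹' U := by rw [hUS]; exact hσ
    exact this
  have h1 : ∀ᶠ y in 𝓝 (r • (σ : E n)), ‖y‖⁻¹ • y ∈ U := by
    refine hc.eventually (hU.mem_nhds ?_)
    rw [show (fun y : E n => ‖y‖⁻¹ • y) (r • (σ : E n)) = σ from hval]
    exact hσU
  filter_upwards [h1, isOpen_ne.mem_nhds hx0] with y hy hy0
  have hyn : 0 < ‖y‖ := norm_pos_iff.2 hy0
  have hmem : ‖y‖⁻¹ • y ∈ sphere (0 : E n) 1 := by
    rw [mem_sphere_zero_iff_norm, norm_smul, norm_inv, norm_norm, inv_mul_cancel₀ hyn.ne']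
  refine ⟨‖y‖, hyn, ⟨_, hmem⟩, ?_, ?_⟩
  · rw [← hUS]; exact hy
  · simp only
    rw [smul_smul, mul_inv_cancel₀ hyn.ne', one_smul]

theorem cone_ne_zero (S : Set (sphere (0 : E n) 1)) {x : E n} (hx : x ∈ cone S) : x ≠ 0 := by
  obtain ⟨r, hr, σ, -, rfl⟩ := hx
  have hσn : ‖(σ : E n)‖ = 1 := by simp
  intro h
  have := congrArg norm h
  rw [norm_smul, hσn, norm_zero, mul_one, Real.norm_of_nonneg hr.le] at this
  linarith

/-- the Navier class satisfies the hypotheses of the inequality -/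
theorem NavierClass.adm {C : Set (E n)} {u : E n → ℝ} (h : NavierClass C u) : Adm C u :=
  ⟨h.1.1, h.1.2.1, h.2.1, h.2.2.2⟩

theorem NavierClass.integrable {C : Set (E n)} (hC : IsOpen C) {u : E n → ℝ} (h : NavierClass C u) :
    IntegrableOn (fun x => (Δ u) x ^ 2) C := by
  choose D hD hDe using fun i : Fin n => h.1.2.2.2 (eb i) (eb i)
  obtain ⟨R, hR⟩ := h.2.2.2
  have hK : IsCompact (closure C ∩ closedBall (0 : E n) R) :=
    (isCompact_closedBall _ _).inter_left isClosed_closure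
  have hcont : ContinuousOn (fun x => ∑ i : Fin n, D i x) (closure C) :=
    continuousOn_finsetSum _ fun i _ => hD i
  obtain ⟨B, hB⟩ := hK.exists_bound_of_continuousOn (hcont.mono inter_subset_left)
  have hlap : ∀ x ∈ C, (Δ u) x = ∑ i : Fin n, D i x := by
    intro x hx
    rw [lap_eq]
    exact Finset.sum_congr rfl fun i _ => by rw [hDe i x hx, hess]
  have hm : AEStronglyMeasurable (fun x => (Δ u) x ^ 2) (volume.restrict C) := by
    refine ContinuousOn.aestronglyMeasurable ?_ hC.measurableSet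
    refine ContinuousOn.pow ?_ 2
    exact (hcont.mono subset_closure).congr hlap
  have hg : Integrable ((closedBall (0 : E n) R).indicator fun _ => B ^ 2) (volume.restrict C) :=
    ((integrable_indicator_iff measurableSet_closedBall).2
      (integrableOn_const measure_closedBall_lt_top.ne)).integrableOn
  refine hg.mono' hm ?_
  refine (ae_restrict_iff' hC.measurableSet).2 (Eventually.of_forall fun x hx => ?_)
  rw [Real.norm_of_nonneg (sq_nonneg _)]
  by_cases hx' : x ∈ closedBall (0 : E n) R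
  · rw [indicator_of_mem hx', hlap x hx, ← sq_abs]
    exact pow_le_pow_left₀ (abs_nonneg _) (hB x ⟨subset_closure hx, hx'⟩) 2
  · rw [indicator_of_notMem hx']
    rw [mem_closedBall_zero_iff] at hx'
    push Not at hx'
    have he : u =ᶠ[𝓝 x] fun _ => (0 : ℝ) := by
      filter_upwards [hC.mem_nhds hx, (isOpen_lt continuous_const continuous_norm).mem_nhds hx']
        with y hy hy'
      exact hR y (subset_closure hy) hy'
    have := (laplacian_congr_nhds he).self_of_nhds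
    rw [this, laplacian_const]
    simp

/-- `S** ≤` quotient for smooth functions, in the form of an inequality for all of them -/
def SobLe (n : ℕ) (S : ℝ) : Prop := ∀ φ : E n → ℝ, ContDiff ℝ ∞ φ → HasCompactSupport φ →
  S * (∫ x, |φ x| ^ pS n) ^ (2 / pS n) ≤ ∫ x, (Δ φ) x ^ 2

theorem lap_cs {φ : E n → ℝ} (h1 : ContDiff ℝ ∞ φ) (h2 : HasCompactSupport φ) :
    Continuous (Δ φ) ∧ HasCompactSupport (Δ φ) := by
  constructor
  · rw [continuous_iff_continuousAt]
    exact fun x => lap_continuousAt (h1.of_le two_le_infty).contDiffAt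
  · have e : (Δ φ) = fun x => ∑ i, fderiv ℝ (fderiv ℝ φ) x (eb i) (eb i) := funext (lap_eq φ)
    have h3 : HasCompactSupport (fderiv ℝ (fderiv ℝ φ)) := (h2.fderiv ℝ).fderiv ℝ
    rw [e]
    exact h3.comp_left (g := fun A : E n →L[ℝ] E n →L[ℝ] ℝ => ∑ i, A (eb i) (eb i)) (by simp)

theorem D2Elem.of_smooth {φ : E n → ℝ} (h1 : ContDiff ℝ ∞ φ) (h2 : HasCompactSupport φ) :
    D2Elem φ (Δ φ) := by
  obtain ⟨h3, h4⟩ := lap_cs h1 h2
  refine ⟨fun _ => φ, fun _ => ⟨h1, h2⟩, ⟨h1.continuous.memLp_of_hasCompactSupport h2, ?_⟩,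
    ⟨h3.memLp_of_hasCompactSupport h4, ?_⟩⟩
  · simp
  · simp [lap]

theorem toReal_pS (hn : 5 ≤ n) : (ENNReal.ofReal (pS n)).toReal = pS n :=
  ENNReal.toReal_ofReal (pS_pos hn).le

theorem rpow_eq_norm (hn : 5 ≤ n) {u : E n → ℝ} (hu : MemLp u (ENNReal.ofReal (pS n)) volume) :
    (∫ x, |u x| ^ pS n) ^ (2 / pS n) = (eLpNorm u (ENNReal.ofReal (pS n)) volume).toReal ^ 2 := by
  have hp := pS_pos hn
  rw [hu.eLpNorm_eq_integral_rpow_norm (by simpa using hp) ENNReal.ofReal_ne_top, toReal_pS hn]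
  have h0 : 0 ≤ ∫ x, ‖u x‖ ^ pS n := integral_nonneg fun x => Real.rpow_nonneg (norm_nonneg _) _
  rw [ENNReal.toReal_ofReal (Real.rpow_nonneg h0 _), ← Real.rpow_natCast, ← Real.rpow_mul h0]
  simp only [Real.norm_eq_abs]
  congr 1
  push_cast
  field_simp

theorem sq_eq_norm {g : E n → ℝ} (hg : MemLp g 2 volume) :
    ∫ x, g x ^ 2 = (eLpNorm g 2 volume).toReal ^ 2 := by
  rw [hg.eLpNorm_eq_integral_rpow_norm two_ne_zero ENNReal.ofNat_ne_top]
  have h0 : 0 ≤ ∫ x, ‖g x‖ ^ (2 : ℝ≥0∞).toReal :=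
    integral_nonneg fun x => Real.rpow_nonneg (norm_nonneg _) _
  rw [ENNReal.toReal_ofReal (Real.rpow_nonneg h0 _), ← Real.rpow_natCast, ← Real.rpow_mul h0]
  simp

theorem norm_tendsto {q : ℝ≥0∞} (hq : 1 ≤ q) {f : ℕ → E n → ℝ} {u : E n → ℝ}
    (hf : ∀ k, MemLp (f k) q volume) (hu : MemLp u q volume)
    (h : Tendsto (fun k => eLpNorm (f k - u) q volume) atTop (𝓝 0)) :
    Tendsto (fun k => (eLpNorm (f k) q volume).toReal) atTop (𝓝 (eLpNorm u q volume).toReal) := by
  have : Fact (1 ≤ q) := ⟨hq⟩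
  have h1 : Tendsto (fun k => (eLpNorm (f k - u) q volume).toReal) atTop (𝓝 0) := by
    have := (ENNReal.tendsto_toReal ENNReal.zero_ne_top).comp h
    rw [ENNReal.toReal_zero] at this
    exact this
  rw [tendsto_iff_norm_sub_tendsto_zero]
  refine squeeze_zero (fun k => norm_nonneg _) (fun k => ?_) h1
  have e1 : (eLpNorm (f k) q volume).toReal = ‖(hf k).toLp (f k)‖ := (Lp.norm_toLp _ _).symm
  have e2 : (eLpNorm u q volume).toReal = ‖hu.toLp u‖ := (Lp.norm_toLp _ _).symm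
  have e3 : (eLpNorm (f k - u) q volume).toReal = ‖((hf k).sub hu).toLp (f k - u)‖ :=
    (Lp.norm_toLp _ _).symm
  rw [e1, e2, e3, MemLp.toLp_sub, Real.norm_eq_abs]
  exact abs_norm_sub_norm_le _ _

theorem SobLe.elem (hn : 5 ≤ n) {S : ℝ} (hS : SobLe n S) {u g : E n → ℝ} (h : D2Elem u g) :
    S * (∫ x, |u x| ^ pS n) ^ (2 / pS n) ≤ ∫ x, g x ^ 2 := by
  obtain ⟨φ, hφ, ⟨hU, h1⟩, ⟨hG, h2⟩⟩ := h
  have m1 : ∀ k, MemLp (φ k) (ENNReal.ofReal (pS n)) volume := fun k =>
    (hφ k).1.continuous.memLp_of_hasCompactSupport (hφ k).2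
  have m2 : ∀ k, MemLp (Δ (φ k)) 2 volume := fun k =>
    (lap_cs (hφ k).1 (hφ k).2).1.memLp_of_hasCompactSupport (lap_cs (hφ k).1 (hφ k).2).2
  have hq : 1 ≤ ENNReal.ofReal (pS n) := by
    rw [ENNReal.one_le_ofReal]; linarith [two_le_pS hn]
  have t1 := ((norm_tendsto hq m1 hU h1).pow 2).const_mul S
  have t2 := (norm_tendsto (by norm_num) m2 hG h2).pow 2
  rw [rpow_eq_norm hn hU, sq_eq_norm hG]
  refine le_of_tendsto_of_tendsto' t1 t2 fun k => ?_
  have := hS (φ k) (hφ k).1 (hφ k).2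
  rwa [rpow_eq_norm hn (m1 k), sq_eq_norm (m2 k)] at this

theorem integral_pos_of_ne {u : E n → ℝ} (hn : 5 ≤ n) (hu : MemLp u (ENNReal.ofReal (pS n)) volume)
    (h0 : ¬ u =ᵐ[volume] 0) : 0 < ∫ x, |u x| ^ pS n := by
  have hp := pS_pos hn
  have hi : Integrable fun x => |u x| ^ pS n := by
    have := hu.integrable_norm_rpow (by simpa using hp) ENNReal.ofReal_ne_top
    simpa [toReal_pS hn] using this
  refine lt_of_le_of_ne (integral_nonneg fun x => Real.rpow_nonneg (abs_nonneg _) _) fun h => h0 ?_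
  have h2 := (integral_eq_zero_iff_of_nonneg (fun x => Real.rpow_nonneg (abs_nonneg (u x)) _) hi).1 h.symm
  filter_upwards [h2] with x hx
  have : |u x| = 0 := by
    by_contra hne
    have hpos : 0 < |u x| := lt_of_le_of_ne (abs_nonneg _) (Ne.symm hne)
    exact (Real.rpow_pos_of_pos hpos (pS n)).ne' hx
  simpa using this

theorem D2Elem.memU {u g : E n → ℝ} (h : D2Elem u g) :
    MemLp u (ENNReal.ofReal (pS n)) volume := by
  obtain ⟨φ, hφ, ⟨hU, -⟩, -⟩ := h
  exact hU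

/-- smooth functions -/
theorem exists_smooth (n : ℕ) : ∃ φ : E n → ℝ, ContDiff ℝ ∞ φ ∧ HasCompactSupport φ ∧ φ 0 ≠ 0 :=
  ⟨bump n, bump_contDiff, (bump n).hasCompactSupport, by
    rw [(bump n).one_of_mem_closedBall (mem_closedBall_self (by norm_num [bump]))]
    norm_num⟩

theorem not_ae_zero {φ : E n → ℝ} (hφ : Continuous φ) {x : E n} (hx : φ x ≠ 0) :
    ¬ φ =ᵐ[volume] 0 := by
  intro h
  have := (hφ.ae_eq_iff_eq volume continuous_zero).1 h
  exact hx (congrFun this x)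

theorem sobolev_bddBelow (n : ℕ) : BddBelow {q | ∃ u g : E n → ℝ, D2Elem u g ∧ ¬ u =ᵐ[volume] 0 ∧
    q = (∫ x, g x ^ 2) / (∫ x, |u x| ^ pS n) ^ (2 / pS n)} := by
  refine ⟨0, ?_⟩
  rintro q ⟨u, g, -, -, rfl⟩
  exact div_nonneg (integral_nonneg fun x => sq_nonneg _)
    (Real.rpow_nonneg (integral_nonneg fun x => Real.rpow_nonneg (abs_nonneg _) _) _)

theorem sobolev_nonneg (n : ℕ) : 0 ≤ sobolevConst n := by
  refine Real.sInf_nonneg ?_
  rintro q ⟨u, g, -, -, rfl⟩
  exact div_nonneg (integral_nonneg fun x => sq_nonneg _)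
    (Real.rpow_nonneg (integral_nonneg fun x => Real.rpow_nonneg (abs_nonneg _) _) _)

/-- the Sobolev inequality with the constant `S**` for smooth functions -/
theorem sobLe_sobolev (hn : 5 ≤ n) : SobLe n (sobolevConst n) := by
  intro φ h1 h2
  by_cases h0 : φ =ᵐ[volume] 0
  · have : φ = 0 := (h1.continuous.ae_eq_iff_eq volume continuous_zero).1 h0
    subst this
    have : ∫ x : E n, |(0 : E n → ℝ) x| ^ pS n = 0 := by
      simp [Real.zero_rpow (pS_pos hn).ne']
    rw [this, Real.zero_rpow (by have := pS_pos hn; positivity), mul_zero]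
    exact integral_nonneg fun x => sq_nonneg _
  · have hel := D2Elem.of_smooth h1 h2
    have hpos := integral_pos_of_ne hn hel.memU h0
    have := csInf_le (sobolev_bddBelow n) ⟨φ, Δ φ, hel, h0, rfl⟩
    rwa [le_div_iff₀ (Real.rpow_pos_of_pos hpos _)] at this

/-- a constant `S` with the Sobolev inequality for smooth functions is at most `S**` -/
theorem SobLe.le (hn : 5 ≤ n) {S : ℝ} (hS : SobLe n S) : S ≤ sobolevConst n := by
  obtain ⟨φ, h1, h2, h3⟩ := exists_smooth n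
  refine le_csInf ⟨_, φ, Δ φ, D2Elem.of_smooth h1 h2, not_ae_zero h1.continuous h3, rfl⟩ ?_
  rintro q ⟨u, g, hel, h0, rfl⟩
  rw [le_div_iff₀ (Real.rpow_pos_of_pos (integral_pos_of_ne hn hel.memU h0) _)]
  exact hS.elem hn hel

end Pool.Agent.K4H49.NV
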