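import Pool.Agent.K4H49.NV.P7

set_option autoImplicit false

/-!
# Equality of the constants
-/

namespace Pool.Agent.K4H49.NV

open Topology Filter MeasureTheory Set Metric InnerProductSpace Laplacian
open scoped ContDiff RealInnerProductSpace Convolution ENNReal

variable {n : ℕ}

theorem lap_affine {φ : E n → ℝ} (h : ContDiff ℝ ∞ φ) (r : ℝ) (x₀ x : E n) :
    (Δ (fun x => φ (r • (x - x₀)))) x = r ^ 2 * (Δ φ) (r • (x - x₀)) := by
  have hc : ContDiff ℝ ∞ fun x => φ (r • (x - x₀)) :=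
    h.comp ((contDiff_id.sub contDiff_const).const_smul r)
  have h2 : ∀ i : Fin n, D2 (fun t => φ (r • (x + t • eb i - x₀))) (r * fderiv ℝ φ (r • (x - x₀)) (eb i))
      (r ^ 2 * fderiv ℝ (fderiv ℝ φ) (r • (x - x₀)) (eb i) (eb i)) := by
    intro i
    have := D2_scaled (h.of_le two_le_infty) r (x - x₀) (eb i)
    refine this.congr (Eventually.of_forall fun t => ?_)
    have e : x - x₀ + t • (eb i : E n) = x + t • eb i - x₀ := by abel
    simp only [e]
  rw [lap_of_D2 (hc.of_le two_le_infty).contDiffAt h2, lap_eq, Finset.mul_sum]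

theorem integral_affine {r : ℝ} (hr : 0 < r) (x₀ : E n) (f : E n → ℝ) :
    ∫ x, f (r • (x - x₀)) = (r ^ n)⁻¹ * ∫ x, f x := by
  rw [integral_sub_right_eq_self (fun x => f (r • x)) x₀]
  rw [Measure.integral_comp_smul_of_nonneg volume f r (hR := hr.le), finrank_euclideanSpace_fin, smul_eq_mul]

/-- every smooth function has a copy in the cone with the same quotient -/
theorem exists_copy (hn : 5 ≤ n) {C : Set (E n)} (hC : IsOpen C) {x₀ : E n} (hx₀ : x₀ ∈ C)
    (hx0 : x₀ ≠ 0) {φ : E n → ℝ} (h1 : ContDiff ℝ ∞ φ) (h2 : HasCompactSupport φ) {x₁ : E n}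
    (h3 : φ x₁ ≠ 0) :
    ∃ u : E n → ℝ, NavierClass C u ∧ (∃ x ∈ C, u x ≠ 0) ∧
      quotient C u = (∫ x, (Δ φ) x ^ 2) / (∫ x, |φ x| ^ pS n) ^ (2 / pS n) := by
  obtain ⟨r₁, hr₁, hball⟩ := Metric.isOpen_iff.1 hC x₀ hx₀
  have hx0p : 0 < ‖x₀‖ := norm_pos_iff.2 hx0
  set r : ℝ := min (r₁ / 2) (‖x₀‖ / 2) with hr
  have hrp : 0 < r := lt_min (by linarith) (by linarith)
  have hrC : ∀ x, ‖x - x₀‖ ≤ r → x ∈ C := fun x hx => hball (by
    rw [mem_ball, dist_eq_norm]
    have : r ≤ r₁ / 2 := min_le_left _ _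
    linarith)
  obtain ⟨ρ, hρ⟩ := h2.isCompact.isBounded.exists_norm_le
  have hρφ : ∀ y, ρ < ‖y‖ → φ =ᶠ[𝓝 y] fun _ => (0 : ℝ) := by
    intro y hy
    filter_upwards [(isOpen_lt continuous_const continuous_norm).mem_nhds hy] with z hz
    by_contra hne
    have := hρ z (subset_tsupport φ hne)
    linarith [show ρ < ‖z‖ from hz]
  have hρ0 : 0 ≤ ρ := (norm_nonneg _).trans (hρ x₁ (subset_tsupport φ h3))
  set l : ℝ := (ρ + 1) / r with hl
  have hlp : 0 < l := by positivity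
  have hfar : ∀ x, r < ‖x - x₀‖ → ρ < ‖l • (x - x₀)‖ := by
    intro x hx
    rw [norm_smul, Real.norm_of_nonneg hlp.le]
    have : l * r = ρ + 1 := by rw [hl]; field_simp
    have : l * r < l * ‖x - x₀‖ := mul_lt_mul_of_pos_left hx hlp
    linarith
  set u : E n → ℝ := fun x => φ (l • (x - x₀)) with hu
  have hu0 : ∀ x, r < ‖x - x₀‖ → u x = 0 := fun x hx => (hρφ _ (hfar x hx)).self_of_nhds
  have huc : ContDiff ℝ ∞ u := h1.comp ((contDiff_id.sub contDiff_const).const_smul l)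
  have hlap : ∀ x, (Δ u) x = l ^ 2 * (Δ φ) (l • (x - x₀)) := fun x => lap_affine h1 l x₀ x
  have hlap0 : ∀ x, x ∉ C → (Δ u) x = 0 := by
    intro x hx
    have hx' : r < ‖x - x₀‖ := by
      by_contra hcon
      push Not at hcon
      exact hx (hrC x hcon)
    rw [hlap, (laplacian_congr_nhds (hρφ _ (hfar x hx'))).self_of_nhds, laplacian_const]
    simp
  have huC : ∀ x, x ∉ C → u x = 0 := by
    intro x hx
    refine hu0 x ?_
    by_contra hcon
    push Not at hcon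
    exact hx (hrC x hcon)
  refine ⟨u, ⟨⟨huc.continuous.continuousOn, (huc.of_le two_le_infty).contDiffOn,
    fun v => ⟨grad u v, ((fderiv_contDiff huc).continuous.clm_apply continuous_const).continuousOn,
      fun x _ => rfl⟩,
    fun v w => ⟨hess u v w, (((fderiv_contDiff (fderiv_contDiff huc)).continuous.clm_apply
      continuous_const).clm_apply continuous_const).continuousOn,
      fun x _ => rfl⟩⟩, ?_, ?_, ?_⟩, ?_, ?_⟩
  · intro x hx
    rw [hC.frontier_eq] at hx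
    exact huC x hx.2
  · refine ⟨‖x₀‖ / 2, by linarith, fun x _ hx => hu0 x ?_⟩
    have a1 : r ≤ ‖x₀‖ / 2 := min_le_right _ _
    have a2 := norm_sub_norm_le x₀ x
    rw [norm_sub_rev] at a2
    linarith
  · refine ⟨‖x₀‖ + r, fun x _ hx => hu0 x ?_⟩
    have a2 := norm_sub_norm_le x x₀
    linarith
  · have e : l • (x₀ + l⁻¹ • x₁ - x₀) = x₁ := by
      rw [add_sub_cancel_left, smul_smul, mul_inv_cancel₀ hlp.ne', one_smul]
    have hne : u (x₀ + l⁻¹ • x₁) ≠ 0 := by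
      rw [hu]; simp only; rw [e]; exact h3
    refine ⟨x₀ + l⁻¹ • x₁, ?_, hne⟩
    by_contra hcon
    exact hne (huC _ hcon)
  · have hp := pS_pos hn
    have i1 : ∫ x in C, (Δ u) x ^ 2 = l ^ 4 * (l ^ n)⁻¹ * ∫ x, (Δ φ) x ^ 2 := by
      rw [setIntegral_eq_integral_of_forall_compl_eq_zero (fun x hx => by rw [hlap0 x hx]; norm_num)]
      have e : ∀ x, (Δ u) x ^ 2 = l ^ 4 * (Δ φ) (l • (x - x₀)) ^ 2 := fun x => by
        rw [hlap]; ring
      simp_rw [e]
      have e2 := integral_affine hlp x₀ (fun y : E n => ((Δ φ : E n → ℝ) y) ^ 2)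
      rw [integral_const_mul, e2]
      ring
    have i2 : ∫ x in C, |u x| ^ pS n = (l ^ n)⁻¹ * ∫ x, |φ x| ^ pS n := by
      rw [setIntegral_eq_integral_of_forall_compl_eq_zero (fun x hx => by
        rw [huC x hx, abs_zero, Real.zero_rpow hp.ne'])]
      exact integral_affine hlp x₀ (fun y => |φ y| ^ pS n)
    have hI0 : 0 ≤ ∫ x, |φ x| ^ pS n := integral_nonneg fun x => Real.rpow_nonneg (abs_nonneg _) _
    unfold quotient lap
    rw [i1, i2, Real.mul_rpow (by positivity) hI0]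
    have e3 : ((l ^ n)⁻¹) ^ (2 / pS n) = l ^ 4 * (l ^ n)⁻¹ := by
      have h5 : (5 : ℝ) ≤ n := by exact_mod_cast hn
      have h6 : (n : ℝ) - 4 ≠ 0 := by
        have : (0 : ℝ) < n - 4 := by linarith
        exact this.ne'
      have h7 : (n : ℝ) ≠ 0 := by
        have : (0 : ℝ) < n := by linarith
        exact this.ne'
      rw [← Real.rpow_natCast l n, ← Real.rpow_neg hlp.le, ← Real.rpow_mul hlp.le,
        ← Real.rpow_natCast l 4, ← Real.rpow_add hlp]
      congr 1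
      unfold pS
      push_cast
      field_simp
      ring
    rw [e3, mul_div_mul_left _ _ (by positivity)]

theorem navier_bddBelow (C : Set (E n)) :
    BddBelow {q | ∃ u : E n → ℝ, NavierClass C u ∧ (∃ x ∈ C, u x ≠ 0) ∧ q = quotient C u} := by
  refine ⟨0, ?_⟩
  rintro q ⟨u, -, -, rfl⟩
  exact div_nonneg (integral_nonneg fun x => sq_nonneg _)
    (Real.rpow_nonneg (integral_nonneg fun x => Real.rpow_nonneg (abs_nonneg _) _) _)

theorem navier_sobLe (hn : 5 ≤ n) {C : Set (E n)} (hC : IsOpen C) {x₀ : E n} (hx₀ : x₀ ∈ C)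
    (hx0 : x₀ ≠ 0) : SobLe n (navierConst C) := by
  intro φ h1 h2
  by_cases h0 : φ = 0
  · subst h0
    have : ∫ x : E n, |(0 : E n → ℝ) x| ^ pS n = 0 := by
      simp [Real.zero_rpow (pS_pos hn).ne']
    rw [this, Real.zero_rpow (by have := pS_pos hn; positivity), mul_zero]
    exact integral_nonneg fun x => sq_nonneg _
  · obtain ⟨x₁, h3⟩ := Function.ne_iff.1 h0
    obtain ⟨u, hu1, hu2, hu3⟩ := exists_copy hn hC hx₀ hx0 h1 h2 h3
    have hpos := integral_pos_of_ne hn (D2Elem.of_smooth h1 h2).memU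
      (not_ae_zero h1.continuous h3)
    have := csInf_le (navier_bddBelow C) ⟨u, hu1, hu2, rfl⟩
    rw [hu3] at this
    rwa [le_div_iff₀ (Real.rpow_pos_of_pos hpos _)] at this

theorem sobolev_le_navier (hn : 5 ≤ n) {C : Set (E n)} (hC : IsOpen C) {x₀ : E n} (hx₀ : x₀ ∈ C)
    (hx0 : x₀ ≠ 0) : sobolevConst n ≤ navierConst C := by
  obtain ⟨φ, h1, h2, h3⟩ := exists_smooth n
  obtain ⟨u, hu1, hu2, -⟩ := exists_copy hn hC hx₀ hx0 h1 h2 h3
  refine le_csInf ⟨_, u, hu1, hu2, rfl⟩ ?_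
  rintro q ⟨v, hv, ⟨x, hx, hvx⟩, rfl⟩
  have hp := pS_pos hn
  have hint := hv.adm.integrable_rpow hC hp
  have hpos : 0 < ∫ x in C, |v x| ^ pS n := by
    refine (setIntegral_pos_iff_support_of_nonneg_ae
      (Eventually.of_forall fun x => Real.rpow_nonneg (abs_nonneg _) _) hint).2 ?_
    have hVo : IsOpen (C ∩ v ⁻¹' {0}ᶜ) :=
      (hv.1.2.1.continuousOn).isOpen_inter_preimage hC isOpen_compl_singleton
    have hVp : 0 < volume (C ∩ v ⁻¹' {0}ᶜ) := hVo.measure_pos _ ⟨x, hx, hvx⟩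
    refine lt_of_lt_of_le hVp (measure_mono ?_)
    rintro y ⟨hy, hy'⟩
    refine ⟨?_, hy⟩
    have : v y ≠ 0 := hy'
    exact (Real.rpow_pos_of_pos (abs_pos.2 this) _).ne'
  unfold quotient
  rw [le_div_iff₀ (Real.rpow_pos_of_pos hpos _)]
  unfold lap
  exact main_ineq (by omega) hp (sobolev_nonneg n) (sobLe_sobolev hn) hC hv.adm (hv.integrable hC)

theorem navier_eq_sobolev (hn : 5 ≤ n) {C : Set (E n)} (hC : IsOpen C) {x₀ : E n} (hx₀ : x₀ ∈ C)
    (hx0 : x₀ ≠ 0) : navierConst C = sobolevConst n :=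
  le_antisymm ((navier_sobLe hn hC hx₀ hx0).le hn) (sobolev_le_navier hn hC hx₀ hx0)

/-- **The theorem for cones.** -/
theorem cone_eq (hn : 5 ≤ n) (S : Set (sphere (0 : E n) 1)) (hS : IsOpen S) (hne : S.Nonempty) :
    navierConst (cone S) = sobolevConst n := by
  obtain ⟨σ, hσ⟩ := hne
  have hmem : (σ : E n) ∈ cone S := ⟨1, one_pos, σ, hσ, by simp⟩
  exact navier_eq_sobolev hn (cone_open S hS) hmem (cone_ne_zero S hmem)

end Pool.Agent.K4H49.NV
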